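import Pool.Agent.W485.NotHom

/-!
The algebraic density property of `A`, given that overshears and homogeneous torus fields are
complete.
-/

namespace Pool.Agent.W485

open Polynomial

noncomputable section

/-! ### Elementary Lie identities -/

section Lie

variable {B : Type} [CommRing B] [Algebra ℂ B]

lemma lie_id1 (E D : VF B) (k z a0 : B) (hz : E z = 0) (ha : D z = a0) :
    ⁅k • E, z • D⁆ - ⁅(z * k) • E, D⁆ = (a0 * k) • E := by
  refine Derivation.ext fun a => ?_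
  simp only [Derivation.sub_apply, Derivation.commutator_apply, Derivation.smul_apply,
    smul_eq_mul, Derivation.leibniz, hz, ha]
  ring

lemma lie_id2 (E V : VF B) (g h f : B) (hg : E g = 0) (hh : E h = 0) :
    ⁅(g * f) • E, ⁅h • E, V⁆⁆ - ⁅(g * h * f) • E, ⁅E, V⁆⁆ = (g * V h * E f) • E := by
  refine Derivation.ext fun a => ?_
  simp only [Derivation.sub_apply, Derivation.commutator_apply, Derivation.smul_apply,
    smul_eq_mul, Derivation.leibniz, map_sub, map_add, hg, hh, map_zero]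
  ring

lemma lie_smul_right (W V : VF B) (a : B) : a • ⁅W, V⁆ = ⁅W, a • V⁆ - (W a) • V := by
  refine Derivation.ext fun b => ?_
  simp only [Derivation.sub_apply, Derivation.commutator_apply, Derivation.smul_apply,
    smul_eq_mul, Derivation.leibniz]
  ring

/-- The general step. -/
lemma lie_step (L : LieSubalgebra ℂ (VF B)) (E V : VF B) (g h f k : B) (c : ℂ) (hc : c ≠ 0)
    (hg : E g = 0) (hh : E h = 0) (hV : V h = c • (k * h)) (hf : E f = (2 : ℂ) • f)
    (m1 : (g * f) • E ∈ L) (m2 : h • E ∈ L) (m3 : (g * h * f) • E ∈ L) (m4 : V ∈ L)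
    (m5 : E ∈ L) : (f * h * g * k) • E ∈ L := by
  have key := lie_id2 E V g h f hg hh
  have m6 : (g * V h * E f) • E ∈ L := by
    rw [← key]
    exact L.sub_mem (L.lie_mem m1 (L.lie_mem m2 m4)) (L.lie_mem m3 (L.lie_mem m5 m4))
  have e5 : (g * V h * E f) • E = (c * 2) • ((f * h * g * k) • E) := by
    refine Derivation.ext fun a => ?_
    rw [hV, hf]
    simp only [Derivation.smul_apply, smul_eq_mul, mul_smul_comm, smul_mul_assoc, smul_smul]
    rw [mul_comm (2 : ℂ)]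
    congr 1
    ring
  rw [e5] at m6
  have h2 : (c * 2) ≠ 0 := mul_ne_zero hc two_ne_zero
  have m7 := L.smul_mem (c * 2)⁻¹ m6
  rwa [smul_smul, inv_mul_cancel₀ h2, one_smul] at m7

end Lie

/-! ### Values of the basic derivations -/

lemma EA_sg (σ : G →+ ℂ) (n : G) (P : ℂ[X]) (h : sg n P ∈ A) :
    EA σ (mkA (sg n P) h) = σ n • mkA (sg n P) h := by
  apply inc_inj
  rw [map_smul]
  change EE σ (sg n P) = σ n • sg n P
  rw [EE_sg, smul_sg]

lemma EA_zA (σ : G →+ ℂ) : EA σ zA = 0 := by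
  have := EA_sg σ 0 X zz_mem
  rw [map_zero, zero_smul] at this
  exact this

/-- The element `t^(2,2,2,2)`. -/
def a0 : AA := mkA (tt four) (tt_mem fun i => by rw [co_four]; decide)

lemma D0_zA : D0 zA = a0 := by
  apply inc_inj
  change D0R (sg 0 X) = tt four
  rw [D0R_sg, derivative_X, add_zero]

lemma D0_tt (n : G) (h : tt n ∈ A) : D0 (mkA (tt n) h) = 0 := by
  apply inc_inj
  change D0R (sg n 1) = inc 0
  rw [D0R_sg, derivative_one, sg_zero, map_zero]

lemma EA_a0 (i : Fin 4) : EA (cc i) a0 = (2 : ℂ) • a0 := by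
  unfold a0
  rw [EA_sg, cc_apply, co_four]
  rfl

lemma Dk_tt (i : Fin 4) (n : G) (h : tt n ∈ A) (h' : tt (kap i + n) ∈ A) :
    Dk i (mkA (tt n) h) = cc i n • mkA (tt (kap i + n)) h' := by
  apply inc_inj
  rw [map_smul]
  change DkR i (sg n 1) = cc i n • sg (kap i + n) 1
  rw [DkR_sg, derivative_one, mul_zero, zero_add, smul_sg]

/-! ### The Lie algebra generated by the complete fields -/

/-- The Lie algebra generated by the complete fields. -/
def LL : LieSubalgebra ℂ (VF AA) :=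
  LieSubalgebra.lieSpan ℂ (VF AA) {V | IsCompleteField V}

/-- The completeness hypotheses. -/
structure Hyp : Prop where
  hover : ∀ V : VF AA, IsOvershear V → IsCompleteField V
  htorus : ∀ (σ : G →+ ℂ) (m : G) (P : ℂ[X]) (h : sg m P ∈ A), σ m = 0 →
    IsCompleteField (mkA (sg m P) h • EA σ)

lemma mem_LL {V : VF AA} (h : IsCompleteField V) : V ∈ LL :=
  LieSubalgebra.subset_lieSpan h

lemma lnd_mem (H : Hyp) {V : VF AA} (h : IsLND V) : V ∈ LL := by
  refine mem_LL (H.hover V ⟨V, 1, h, ?_, (one_smul _ _).symm⟩)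
  rw [Derivation.map_one_eq_zero, map_zero]

lemma torus_mem (H : Hyp) (σ : G →+ ℂ) (m : G) (P : ℂ[X]) (h : sg m P ∈ A) (hσ : σ m = 0) :
    mkA (sg m P) h • EA σ ∈ LL := mem_LL (H.htorus σ m P h hσ)

lemma EA_mem (H : Hyp) (σ : G →+ ℂ) : EA σ ∈ LL := by
  have h := torus_mem H σ 0 1 (zero_mem_sg 1) (map_zero σ)
  have h1 : mkA (sg 0 1) (zero_mem_sg 1) = 1 := rfl
  rwa [h1, one_smul] at h

lemma zD0_mem (H : Hyp) : zA • D0 ∈ LL := by
  refine mem_LL (H.hover _ ⟨D0, zA, D0_lnd, ?_, rfl⟩)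
  rw [D0_zA]
  exact D0_tt _ _

lemma a0_torus_mem (H : Hyp) (σ : G →+ ℂ) (m : G) (P : ℂ[X]) (h : sg m P ∈ A) (hσ : σ m = 0) :
    (a0 * mkA (sg m P) h) • EA σ ∈ LL := by
  rw [← lie_id1 (EA σ) D0 (mkA (sg m P) h) zA a0 (EA_zA σ) D0_zA]
  have h1 : zA * mkA (sg m P) h = mkA (sg m (X * P)) (by
      have := sg_mem_add zz_mem h
      rwa [zero_add] at this) := by
    apply inc_inj
    rw [map_mul]
    change sg 0 X * sg m P = sg m (X * P)
    rw [sg_mul, zero_add]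
  refine LL.sub_mem (LL.lie_mem (torus_mem H σ m P h hσ) (zD0_mem H)) (LL.lie_mem ?_ ?_)
  · rw [h1]
    exact torus_mem H σ m _ _ hσ
  · exact lnd_mem H D0_lnd

/-- The two auxiliary monomials not involving `t_i`. -/
def hh1 (i : Fin 4) : AA := mkA (tt (pr (i + 1))) (pr_mem _)
def hh2 (i : Fin 4) : AA := mkA (tt (pr (i + 2))) (pr_mem _)

lemma co_pr_facts (i : Fin 4) : co i (pr (i + 1)) = 0 ∧ co i (pr (i + 2)) = 0 ∧
    co (i + 1) (pr (i + 1)) = 1 ∧ co (i + 3) (pr (i + 1)) = 0 ∧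
    co (i + 1) (pr (i + 2)) = 0 ∧ co (i + 3) (pr (i + 2)) = 1 := by revert i; decide

lemma EA_kill {σ : G →+ ℂ} {n : G} {P : ℂ[X]} {h : sg n P ∈ A} (hσ : σ n = 0) :
    EA σ (mkA (sg n P) h) = 0 := by rw [EA_sg, hσ, zero_smul]

/-- The general step: products of homogeneous elements. -/
lemma step_mem (H : Hyp) (i : Fin 4) (σ : G →+ ℂ) {p q m : G} (hp : ∀ j, 0 ≤ co j p)
    (hq : ∀ j, 0 ≤ co j q) (hpi : co i p = 0) (hqi : co i q = 0) (P : ℂ[X]) (h : sg m P ∈ A)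
    (hσ : σ m = 0) (hσp : σ p ≠ 0) :
    (a0 * mkA (tt p) (tt_mem hp) * mkA (tt q) (tt_mem hq) * mkA (sg m P) h) • EA (cc i) ∈ LL := by
  have cp : cc i p = 0 := by rw [cc_apply, hpi, Int.cast_zero]
  have cq : cc i q = 0 := by rw [cc_apply, hqi, Int.cast_zero]
  have hmem : sg (q + p) (1 * 1) ∈ A := sg_mem_add (tt_mem hq) (tt_mem hp)
  have h1 : mkA (tt q) (tt_mem hq) * mkA (tt p) (tt_mem hp) = mkA (sg (q + p) (1 * 1)) hmem :=
    mkA_mul _ _ _ _ _ _ hmem
  refine lie_step LL (EA (cc i)) (mkA (sg m P) h • EA σ) (mkA (tt q) (tt_mem hq))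
    (mkA (tt p) (tt_mem hp)) a0 (mkA (sg m P) h) (σ p) hσp (EA_kill cq) (EA_kill cp) ?_
    (EA_a0 i) ?_ (torus_mem H (cc i) p 1 (tt_mem hp) cp) ?_ (torus_mem H σ m P h hσ) (EA_mem H _)
  · rw [Derivation.smul_apply, EA_sg, smul_eq_mul, mul_smul_comm]
  · rw [mul_comm]
    exact a0_torus_mem H (cc i) q 1 (tt_mem hq) cq
  · rw [h1, mul_comm]
    exact a0_torus_mem H (cc i) (q + p) _ hmem (by rw [map_add, cq, cp, add_zero])

/-- The multiplier `F_i`. -/
def FF (i : Fin 4) : AA := a0 * hh1 i * hh2 i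

lemma FF_mem_sg (H : Hyp) (i : Fin 4) (m : G) (P : ℂ[X]) (h : sg m P ∈ A) :
    (FF i * mkA (sg m P) h) • EA (cc i) ∈ LL := by
  obtain ⟨f1, f2, f3, f4, f5, f6⟩ := co_pr_facts i
  by_cases hm : co (i + 1) m = 0
  · exact step_mem H i (cc (i + 1)) (co_pr_nonneg (i + 1)) (co_pr_nonneg (i + 2)) f1 f2 P h
      (by rw [cc_apply, hm, Int.cast_zero]) (by rw [cc_apply, f3, Int.cast_one]; exact one_ne_zero)
  · let σ : G →+ ℂ := (AddMonoidHom.mulLeft (cc (i + 1) m)).comp (cc (i + 3)) -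
      (AddMonoidHom.mulLeft (cc (i + 3) m)).comp (cc (i + 1))
    have hσ : ∀ n, σ n = cc (i + 1) m * cc (i + 3) n - cc (i + 3) m * cc (i + 1) n :=
      fun n => rfl
    have h1 := step_mem H i σ (co_pr_nonneg (i + 2)) (co_pr_nonneg (i + 1)) f2 f1 P h
      (by rw [hσ]; ring) (by
        rw [hσ, cc_apply _ (pr (i + 2)), cc_apply _ (pr (i + 2)), f6, f5, Int.cast_one,
          Int.cast_zero, mul_one, mul_zero, sub_zero, cc_apply]
        exact_mod_cast hm)
    have h2 : FF i * mkA (sg m P) h = a0 * mkA (tt (pr (i + 2))) (tt_mem (co_pr_nonneg (i + 2))) *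
        mkA (tt (pr (i + 1))) (tt_mem (co_pr_nonneg (i + 1))) * mkA (sg m P) h := by
      change a0 * hh1 i * hh2 i * _ = a0 * hh2 i * hh1 i * _
      ring
    rw [h2]
    exact h1

lemma FF_mem (H : Hyp) (i : Fin 4) (a : AA) : (FF i * a) • EA (cc i) ∈ LL := by
  have key : ∀ F ∈ A, ∀ hF : F ∈ A, (FF i * mkA F hF) • EA (cc i) ∈ LL := by
    intro F hF
    refine A_induction (p := fun F => ∀ hF : F ∈ A, (FF i * mkA F hF) • EA (cc i) ∈ LL)
      ?_ ?_ ?_ hF
    · intro h0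
      have : mkA 0 h0 = 0 := rfl
      rw [this, mul_zero, zero_smul]
      exact LL.zero_mem
    · intro a ha b hb iha ihb h
      have : mkA (a + b) h = mkA a ha + mkA b hb := rfl
      rw [this, mul_add, add_smul]
      exact LL.add_mem (iha _) (ihb _)
    · intro n P _ hP
      exact FF_mem_sg H i n P hP
  exact key (inc a) (inc_mem a) (inc_mem a)

/-- The largest submodule over the algebra contained in `LL`. -/
def NNN : Submodule AA (VF AA) where
  carrier := {V | ∀ a : AA, a • V ∈ LL}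
  add_mem' := by
    intro V W hV hW a
    rw [smul_add]
    exact LL.add_mem (hV a) (hW a)
  zero_mem' := by
    intro a
    rw [smul_zero]
    exact LL.zero_mem
  smul_mem' := by
    intro c V hV a
    rw [smul_smul]
    exact hV _

lemma NNN_lie {W V : VF AA} (hW : W ∈ LL) (hV : V ∈ NNN) : ⁅W, V⁆ ∈ NNN := by
  intro a
  rw [lie_smul_right]
  exact LL.sub_mem (LL.lie_mem hW (hV a)) (hV _)

lemma FE_mem (H : Hyp) (i : Fin 4) : FF i • EA (cc i) ∈ NNN := by
  intro a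
  rw [smul_smul, mul_comm]
  exact FF_mem H i a

lemma D0_FF (i : Fin 4) : D0 (FF i) = 0 := by
  unfold FF hh1 hh2 a0
  rw [Derivation.leibniz, Derivation.leibniz, D0_tt, D0_tt, D0_tt]
  simp only [smul_zero, add_zero]

lemma lie_D0_EA (i : Fin 4) : ⁅D0, EA (cc i)⁆ = (-2 : ℂ) • D0 := by
  apply VF_ext
  · rw [Derivation.commutator_apply, EA_zA, map_zero, D0_zA, EA_a0, Derivation.smul_apply, D0_zA]
    rw [zero_sub, neg_smul]
  · unfold x1
    rw [Derivation.commutator_apply, D0_tt, EA_sg, map_zero, D0.map_smul, D0_tt, smul_zero,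
      Derivation.smul_apply, D0_tt, smul_zero, sub_zero]
  · unfold x2
    rw [Derivation.commutator_apply, D0_tt, EA_sg, map_zero, D0.map_smul, D0_tt, smul_zero,
      Derivation.smul_apply, D0_tt, smul_zero, sub_zero]
  · unfold x3
    rw [Derivation.commutator_apply, D0_tt, EA_sg, map_zero, D0.map_smul, D0_tt, smul_zero,
      Derivation.smul_apply, D0_tt, smul_zero, sub_zero]

lemma FD_mem (H : Hyp) (i : Fin 4) : FF i • D0 ∈ NNN := by
  have h1 : ⁅D0, FF i • EA (cc i)⁆ ∈ NNN := NNN_lie (lnd_mem H D0_lnd) (FE_mem H i)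
  have h2 : ⁅D0, FF i • EA (cc i)⁆ = (-2 : ℂ) • (FF i • D0) := by
    have h3 := lie_smul_right D0 (EA (cc i)) (FF i)
    rw [D0_FF, zero_smul, sub_zero] at h3
    rw [← h3, lie_D0_EA, smul_comm]
  rw [h2] at h1
  have h4 : (-2 : ℂ)⁻¹ • ((-2 : ℂ) • (FF i • D0)) ∈ NNN := by
    rw [← algebraMap_smul AA ((-2 : ℂ)⁻¹)]
    exact NNN.smul_mem _ h1
  rwa [smul_smul, inv_mul_cancel₀ (by norm_num), one_smul] at h4

/-- The ideal of multipliers of all derivations into `NNN`. -/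
def II : Ideal AA where
  carrier := {a | ∀ V : VF AA, a • V ∈ NNN}
  add_mem' := by
    intro a b ha hb V
    rw [add_smul]
    exact NNN.add_mem (ha V) (hb V)
  zero_mem' := by
    intro V
    rw [zero_smul]
    exact NNN.zero_mem
  smul_mem' := by
    intro c a ha V
    rw [smul_assoc]
    exact NNN.smul_mem c (ha V)

lemma II_stable {a : AA} (ha : a ∈ II) {W : VF AA} (hW : W ∈ LL) : W a ∈ II := by
  intro V
  have h := lie_smul_right W V a
  have h1 : (W a) • V = ⁅W, a • V⁆ - a • ⁅W, V⁆ := by rw [h]; abel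
  rw [h1]
  exact NNN.sub_mem (NNN_lie hW (ha V)) (ha _)

lemma II_smul {a : AA} {c : ℂ} (hc : c ≠ 0) (h : c • a ∈ II) : a ∈ II := by
  have h1 : c⁻¹ • (c • a) ∈ II := by
    rw [← algebraMap_smul AA c⁻¹ (c • a)]
    exact II.smul_mem _ h
  rwa [smul_smul, inv_mul_cancel₀ hc, one_smul] at h1

lemma EA_x {σ : G →+ ℂ} {n : G} (h : tt n ∈ A) {k : ℂ} (hk : σ n = k) :
    EA σ (mkA (tt n) h) = k • mkA (tt n) h := by rw [EA_sg, hk]

lemma expand (V : VF AA) : (x1 * x2 * x3 * a0) • V =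
    (x1 * x2 * x3 * V zA) • D0 + (a0 * x2 * x3 * V x1) • EA (cc 1) +
    (a0 * x1 * x3 * V x2) • (EA (cc 0) - EA (cc 1)) + (a0 * x1 * x2 * V x3) • EA (cc 2) := by
  have a11 : EA (cc 1) x1 = x1 := by
    unfold x1; rw [EA_x _ (k := 1) (by rw [cc_eq_of 1 g1 1 rfl]; norm_num), one_smul]
  have a12 : EA (cc 1) x2 = 0 := by
    unfold x2; rw [EA_x _ (k := 0) (by rw [cc_eq_of 1 g2 0 rfl]; norm_num), zero_smul]
  have a13 : EA (cc 1) x3 = 0 := by
    unfold x3; rw [EA_x _ (k := 0) (by rw [cc_eq_of 1 g3 0 rfl]; norm_num), zero_smul]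
  have a01 : EA (cc 0) x1 = x1 := by
    unfold x1; rw [EA_x _ (k := 1) (by rw [cc_eq_of 0 g1 1 rfl]; norm_num), one_smul]
  have a02 : EA (cc 0) x2 = x2 := by
    unfold x2; rw [EA_x _ (k := 1) (by rw [cc_eq_of 0 g2 1 rfl]; norm_num), one_smul]
  have a03 : EA (cc 0) x3 = 0 := by
    unfold x3; rw [EA_x _ (k := 0) (by rw [cc_eq_of 0 g3 0 rfl]; norm_num), zero_smul]
  have a21 : EA (cc 2) x1 = 0 := by
    unfold x1; rw [EA_x _ (k := 0) (by rw [cc_eq_of 2 g1 0 rfl]; norm_num), zero_smul]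
  have a22 : EA (cc 2) x2 = 0 := by
    unfold x2; rw [EA_x _ (k := 0) (by rw [cc_eq_of 2 g2 0 rfl]; norm_num), zero_smul]
  have a23 : EA (cc 2) x3 = x3 := by
    unfold x3; rw [EA_x _ (k := 1) (by rw [cc_eq_of 2 g3 1 rfl]; norm_num), one_smul]
  have d1 : D0 x1 = 0 := D0_tt _ _
  have d2 : D0 x2 = 0 := D0_tt _ _
  have d3 : D0 x3 = 0 := D0_tt _ _
  apply VF_ext
  · simp only [Derivation.add_apply, Derivation.sub_apply, Derivation.smul_apply, smul_eq_mul,
      EA_zA, D0_zA]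
    ring
  · simp only [Derivation.add_apply, Derivation.sub_apply, Derivation.smul_apply, smul_eq_mul,
      a11, a01, a21, d1]
    ring
  · simp only [Derivation.add_apply, Derivation.sub_apply, Derivation.smul_apply, smul_eq_mul,
      a12, a02, a22, d2]
    ring
  · simp only [Derivation.add_apply, Derivation.sub_apply, Derivation.smul_apply, smul_eq_mul,
      a13, a03, a23, d3]
    ring

lemma TT_mem (H : Hyp) : FF 0 * FF 1 * FF 2 * (x1 * x2 * x3 * a0) ∈ II := by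
  intro V
  rw [mul_smul, expand]
  have e : (FF 0 * FF 1 * FF 2) • ((x1 * x2 * x3 * V zA) • D0 + (a0 * x2 * x3 * V x1) • EA (cc 1) +
      (a0 * x1 * x3 * V x2) • (EA (cc 0) - EA (cc 1)) + (a0 * x1 * x2 * V x3) • EA (cc 2)) =
      (FF 1 * FF 2 * (x1 * x2 * x3 * V zA)) • (FF 0 • D0) +
      (FF 0 * FF 2 * (a0 * x2 * x3 * V x1)) • (FF 1 • EA (cc 1)) +
      ((FF 1 * FF 2 * (a0 * x1 * x3 * V x2)) • (FF 0 • EA (cc 0)) -
      (FF 0 * FF 2 * (a0 * x1 * x3 * V x2)) • (FF 1 • EA (cc 1))) +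
      (FF 0 * FF 1 * (a0 * x1 * x2 * V x3)) • (FF 2 • EA (cc 2)) := by
    simp only [smul_add, smul_sub, smul_smul]
    have r1 : FF 0 * FF 1 * FF 2 * (x1 * x2 * x3 * V zA) =
      FF 1 * FF 2 * (x1 * x2 * x3 * V zA) * FF 0 := by ring
    have r2 : FF 0 * FF 1 * FF 2 * (a0 * x2 * x3 * V x1) =
      FF 0 * FF 2 * (a0 * x2 * x3 * V x1) * FF 1 := by ring
    have r3 : FF 0 * FF 1 * FF 2 * (a0 * x1 * x3 * V x2) =
      FF 1 * FF 2 * (a0 * x1 * x3 * V x2) * FF 0 := by ring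
    have r4 : FF 0 * FF 1 * FF 2 * (a0 * x1 * x3 * V x2) =
      FF 0 * FF 2 * (a0 * x1 * x3 * V x2) * FF 1 := by ring
    have r5 : FF 0 * FF 1 * FF 2 * (a0 * x1 * x2 * V x3) =
      FF 0 * FF 1 * (a0 * x1 * x2 * V x3) * FF 2 := by ring
    rw [r1, r2, r5, ← r3, ← r4]
  rw [e]
  exact NNN.add_mem (NNN.add_mem (NNN.add_mem (NNN.smul_mem _ (FD_mem H 0))
    (NNN.smul_mem _ (FE_mem H 1))) (NNN.sub_mem (NNN.smul_mem _ (FE_mem H 0))
    (NNN.smul_mem _ (FE_mem H 1)))) (NNN.smul_mem _ (FE_mem H 2))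

/-- The ideal contains a monomial. -/
lemma exists_monomial (H : Hyp) : ∃ (n : G) (hn : ∀ j, 0 ≤ co j n), mkA (tt n) (tt_mem hn) ∈ II := by
  have h := TT_mem H
  have hmul : ∀ {p q : G} (hp : ∀ j, 0 ≤ co j p) (hq : ∀ j, 0 ≤ co j q),
      ∃ (hpq : ∀ j, 0 ≤ co j (p + q)), mkA (tt p) (tt_mem hp) * mkA (tt q) (tt_mem hq) =
        mkA (tt (p + q)) (tt_mem hpq) := by
    intro p q hp hq
    refine ⟨fun j => by rw [map_add]; exact add_nonneg (hp j) (hq j), ?_⟩
    apply inc_inj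
    rw [map_mul]
    exact tt_mul p q
  have mono : ∀ a : AA, (∃ (n : G) (hn : ∀ j, 0 ≤ co j n), a = mkA (tt n) (tt_mem hn)) →
      ∀ b : AA, (∃ (n : G) (hn : ∀ j, 0 ≤ co j n), b = mkA (tt n) (tt_mem hn)) →
      ∃ (n : G) (hn : ∀ j, 0 ≤ co j n), a * b = mkA (tt n) (tt_mem hn) := by
    rintro _ ⟨p, hp, rfl⟩ _ ⟨q, hq, rfl⟩
    obtain ⟨hpq, e⟩ := hmul hp hq
    exact ⟨p + q, hpq, e⟩
  have ma0 : ∃ (n : G) (hn : ∀ j, 0 ≤ co j n), a0 = mkA (tt n) (tt_mem hn) :=
    ⟨four, fun i => by rw [co_four]; decide, rfl⟩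
  have mFF : ∀ i, ∃ (n : G) (hn : ∀ j, 0 ≤ co j n), FF i = mkA (tt n) (tt_mem hn) := fun i =>
    mono _ (mono _ ma0 _ ⟨_, co_pr_nonneg _, rfl⟩) _ ⟨_, co_pr_nonneg _, rfl⟩
  have mT := mono _ (mono _ (mono _ (mFF 0) _ (mFF 1)) _ (mFF 2)) _
    (mono _ (mono _ (mono _ ⟨_, g1_nonneg, rfl⟩ _ ⟨_, g2_nonneg, rfl⟩) _ ⟨_, g3_nonneg, rfl⟩) _ ma0)
  obtain ⟨n, hn, e⟩ := mT
  exact ⟨n, hn, by rw [← e]; exact h⟩

lemma lower (H : Hyp) (i : Fin 4) : ∀ (k : ℕ) (n : G) (hn : ∀ j, 0 ≤ co j n), co i n = k →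
    mkA (tt n) (tt_mem hn) ∈ II →
    ∃ (n' : G) (hn' : ∀ j, 0 ≤ co j n'), co i n' = 0 ∧ mkA (tt n') (tt_mem hn') ∈ II := by
  intro k
  induction k with
  | zero => intro n hn hi h; exact ⟨n, hn, by exact_mod_cast hi, h⟩
  | succ k ih =>
    intro n hn hi h
    have hn' : ∀ j, 0 ≤ co j (kap i + n) := by
      intro j
      rw [map_add]
      by_cases hj : j = i
      · subst hj
        rw [co_kap_self, hi]
        push_cast
        omega
      · have h1 := co_kap_ne i j hj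
        have h2 := hn j
        omega
    refine ih (kap i + n) hn' (by rw [map_add, co_kap_self, hi]; push_cast; ring) ?_
    have h1 := II_stable h (lnd_mem H (Dk_lnd i))
    rw [Dk_tt i n (tt_mem hn) (tt_mem hn')] at h1
    refine II_smul ?_ h1
    rw [cc_apply, hi]
    exact_mod_cast Nat.succ_ne_zero k

lemma W_neg_mem (H : Hyp) (i : Fin 4) : ∃ n : G, co i n = 0 ∧ pz (W (-n)) ∈ II := by
  obtain ⟨n, hn, h⟩ := exists_monomial H
  obtain ⟨n', hn', h0, h'⟩ := lower H i (co i n).toNat n hn (by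
    rw [Int.toNat_of_nonneg (hn i)]) h
  refine ⟨n', h0, ?_⟩
  have e : pz (W (-n')) = mkA (sg (-n') (W (-n'))) (W_mem (-n')) * mkA (tt n') (tt_mem hn') := by
    apply inc_inj
    rw [map_mul]
    change sg 0 (W (-n')) = sg (-n') (W (-n')) * sg n' 1
    rw [sg_mul, neg_add_cancel, mul_one]
  rw [e]
  exact II.mul_mem_left _ h'

/-- The ring homomorphism from polynomials. -/
def pzHom : ℂ[X] →ₐ[ℂ] AA := aeval zA

lemma one_mem_II (H : Hyp) : (1 : AA) ∈ II := by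
  let J : Ideal ℂ[X] := II.comap pzHom
  have hJ : ∀ P, P ∈ J ↔ pz P ∈ II := by
    intro P
    rw [Ideal.mem_comap, pz_eq]
    rfl
  obtain ⟨q, hq⟩ := (IsPrincipalIdealRing.principal J).principal
  have hW : ∀ i, ∃ n : G, co i n = 0 ∧ q ∣ W (-n) := by
    intro i
    obtain ⟨n, h0, h⟩ := W_neg_mem H i
    refine ⟨n, h0, ?_⟩
    have h1 : W (-n) ∈ J := (hJ _).2 h
    rw [hq] at h1
    exact Ideal.mem_span_singleton.1 h1
  have hu : IsUnit q := by
    rw [Polynomial.isUnit_iff_degree_eq_zero]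
    by_contra hdeg
    obtain ⟨y0, hy0⟩ := IsAlgClosed.exists_root q hdeg
    have hroot : ∀ i, ∃ n : G, co i n = 0 ∧ (W (-n)).eval y0 = 0 := by
      intro i
      obtain ⟨n, h0, ⟨s, hs⟩⟩ := hW i
      refine ⟨n, h0, ?_⟩
      rw [hs, eval_mul, hy0, zero_mul]
    have heval : ∀ n : G, (W (-n)).eval y0 = ∏ i, (y0 - y i) ^ cw (co i (-n)) := by
      intro n
      unfold W
      rw [eval_prod]
      refine Finset.prod_congr rfl fun i _ => ?_
      rw [eval_pow]
      unfold l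
      rw [eval_sub, eval_X, eval_C]
    obtain ⟨n, -, hn⟩ := hroot 0
    rw [heval, Finset.prod_eq_zero_iff] at hn
    obtain ⟨j, -, hj⟩ := hn
    have hj' : y0 = y j := by
      by_contra hne
      exact pow_ne_zero _ (sub_ne_zero.2 hne) hj
    obtain ⟨n', h0', hn'⟩ := hroot j
    rw [heval, Finset.prod_eq_zero_iff] at hn'
    obtain ⟨j', -, hj2⟩ := hn'
    by_cases hjj : j' = j
    · subst hjj
      rw [map_neg, h0'] at hj2
      have : cw (-0) = 0 := rfl
      rw [this, pow_zero] at hj2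
      exact one_ne_zero hj2
    · apply hjj
      apply y_inj
      rw [← hj']
      by_contra hne
      exact pow_ne_zero _ (sub_ne_zero.2 (Ne.symm hne)) hj2
  have h1 : (1 : ℂ[X]) ∈ J := by
    rw [hq]
    exact Ideal.mem_span_singleton.2 hu.dvd
  exact (hJ 1).1 h1

/-- The algebraic density property, given completeness of the basic fields. -/
theorem algebraicDensity_of (H : Hyp) : AlgebraicDensity AA := by
  unfold AlgebraicDensity
  refine eq_top_iff.2 fun V _ => ?_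
  have h := one_mem_II H V 1
  rw [one_smul, one_smul] at h
  exact h

end

end Pool.Agent.W485
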