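import Pool.Agent.W485.Defs

/-!
The algebra `A`: the lattice `G`, the Laurent algebra `R = ℂ[X][G]` and the subalgebra `A`.
-/

namespace Pool.Agent.W485

open Polynomial

noncomputable section

/-- The lattice of exponents. -/
abbrev G : Type := ℤ × ℤ × ℤ

/-- The four coordinates of an exponent; `co 0 + co 2 = co 1 + co 3`. -/
def co : Fin 4 → (G →+ ℤ) :=
  ![(AddMonoidHom.fst ℤ ℤ).comp (AddMonoidHom.snd ℤ (ℤ × ℤ)),
    (AddMonoidHom.snd ℤ ℤ).comp (AddMonoidHom.snd ℤ (ℤ × ℤ)),
    AddMonoidHom.fst ℤ (ℤ × ℤ) -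
      (AddMonoidHom.fst ℤ ℤ).comp (AddMonoidHom.snd ℤ (ℤ × ℤ)),
    AddMonoidHom.fst ℤ (ℤ × ℤ) -
      (AddMonoidHom.snd ℤ ℤ).comp (AddMonoidHom.snd ℤ (ℤ × ℤ))]

lemma co0 (n : G) : co 0 n = n.2.1 := rfl
lemma co1 (n : G) : co 1 n = n.2.2 := rfl
lemma co2 (n : G) : co 2 n = n.1 - n.2.1 := rfl
lemma co3 (n : G) : co 3 n = n.1 - n.2.2 := rfl

lemma co_rel (n : G) : co 0 n + co 2 n = co 1 n + co 3 n := by
  rw [co0, co1, co2, co3]; ring

/-- The four points on the line. -/
def y (i : Fin 4) : ℂ := ((i : ℕ) : ℂ)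

lemma y_inj : Function.Injective y := by
  intro i j h
  unfold y at h
  exact Fin.ext (by exact_mod_cast h)

/-- The linear polynomial vanishing at `y i`. -/
def l (i : Fin 4) : ℂ[X] := X - C (y i)

/-- `cw k` is the ceiling of half the negative part of `k`. -/
def cw (k : ℤ) : ℕ := ((1 - k) / 2).toNat

lemma cw_nonneg {k : ℤ} (h : 0 ≤ k) : cw k = 0 := by unfold cw; omega

lemma cw_add (a b : ℤ) : cw (a + b) ≤ cw a + cw b := by unfold cw; omega

/-- The Laurent algebra `ℂ[X][G]`. -/
abbrev R : Type := AddMonoidAlgebra ℂ[X] G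

/-- The algebra `A`. -/
def A : Subalgebra ℂ R where
  carrier := {F | ∀ n i, l i ^ cw (co i n) ∣ F.coeff n}
  add_mem' := by
    intro a b ha hb n i
    rw [AddMonoidAlgebra.coeff_add]
    exact dvd_add (ha n i) (hb n i)
  mul_mem' := by
    intro a b ha hb n i
    rw [AddMonoidAlgebra.coeff_mul]
    refine Finset.dvd_sum fun p hp => Finset.dvd_sum fun q hq => ?_
    show l i ^ cw (co i n) ∣ (if p + q = n then a.coeff p * b.coeff q else 0)
    split_ifs with h
    · rw [← h, map_add]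
      refine dvd_trans (pow_dvd_pow _ (cw_add _ _)) ?_
      rw [pow_add]
      exact mul_dvd_mul (ha p i) (hb q i)
    · exact dvd_zero _
  algebraMap_mem' := by
    intro r n i
    rw [AddMonoidAlgebra.coe_algebraMap, Function.comp, AddMonoidAlgebra.coeff_single,
      Finsupp.single_apply]
    split_ifs with h
    · rw [← h, map_zero, cw_nonneg le_rfl, pow_zero]
      exact one_dvd _
    · exact dvd_zero _

lemma mem_A {F : R} : F ∈ A ↔ ∀ n i, l i ^ cw (co i n) ∣ F.coeff n := Iff.rfl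

/-- The monomials in the ambient algebra. -/
abbrev sg (n : G) (P : ℂ[X]) : R := AddMonoidAlgebra.single n P

lemma sg_mem {n : G} {P : ℂ[X]} : sg n P ∈ A ↔ ∀ i, l i ^ cw (co i n) ∣ P := by
  rw [mem_A]
  constructor
  · intro h i
    have := h n i
    rwa [AddMonoidAlgebra.coeff_single, Finsupp.single_eq_same] at this
  · intro h m i
    rw [AddMonoidAlgebra.coeff_single, Finsupp.single_apply]
    split_ifs with hm
    · rw [← hm]; exact h i
    · exact dvd_zero _

lemma sg_mem_of_nonneg {n : G} (hn : ∀ i, 0 ≤ co i n) (P : ℂ[X]) : sg n P ∈ A := by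
  rw [sg_mem]
  intro i
  rw [cw_nonneg (hn i), pow_zero]
  exact one_dvd _

lemma coeff_mem {F : R} (hF : F ∈ A) (n : G) : sg n (F.coeff n) ∈ A :=
  sg_mem.2 (fun i => hF n i)

/-- Induction on homogeneous elements. -/
lemma A_induction {p : R → Prop} (h0 : p 0) (hadd : ∀ a ∈ A, ∀ b ∈ A, p a → p b → p (a + b))
    (hs : ∀ n P, sg n P ∈ A → p (sg n P)) {F : R} (hF : F ∈ A) : p F := by
  have key : ∀ s : Finset G, (∑ n ∈ s, sg n (F.coeff n)) ∈ A ∧
      p (∑ n ∈ s, sg n (F.coeff n)) := by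
    intro s
    induction s using Finset.induction_on with
    | empty => exact ⟨by simp, by simpa using h0⟩
    | insert a s ha ih =>
      rw [Finset.sum_insert ha]
      exact ⟨A.add_mem (coeff_mem hF a) ih.1,
        hadd _ (coeff_mem hF a) _ ih.1 (hs _ _ (coeff_mem hF a)) ih.2⟩
  have h := (key F.coeff.support).2
  have h2 : ∑ n ∈ F.coeff.support, sg n (F.coeff n) = F :=
    AddMonoidAlgebra.sum_coeff_single F
  rwa [h2] at h

/-- The element `z`. -/
def zz : R := sg 0 X

lemma zz_mem : zz ∈ A := sg_mem_of_nonneg (fun i => by rw [map_zero]) _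

/-- The algebra `A` as a type. -/
def AA : Type := A

instance : CommRing AA := inferInstanceAs (CommRing A)

instance : Algebra ℂ AA := inferInstanceAs (Algebra ℂ A)

instance : IsDomain AA := inferInstanceAs (IsDomain A)

/-- The inclusion into the ambient algebra. -/
def inc : AA →ₐ[ℂ] R := A.val

lemma inc_inj : Function.Injective inc := Subtype.val_injective

lemma inc_mem (a : AA) : inc a ∈ A := a.2

/-- Elements of `AA` from elements of the ambient algebra. -/
def mkA (F : R) (h : F ∈ A) : AA := ⟨F, h⟩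

lemma inc_mkA (F : R) (h : F ∈ A) : inc (mkA F h) = F := rfl

lemma mkA_inc (a : AA) : mkA (inc a) (inc_mem a) = a := rfl

end

end Pool.Agent.W485
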