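import Mathlib

/-!
General definitions for affine varieties over the complex numbers, in terms of the coordinate
ring: locally nilpotent derivations, overshears, complete vector fields, the algebraic density
property, the algebraic overshear density property and flexibility.
-/

namespace Pool.Agent.W485

section General

variable (A : Type) [CommRing A] [Algebra ℂ A]

/-- Algebraic vector fields: derivations of the coordinate ring. -/
abbrev VF : Type := Derivation ℂ A A

/-- A locally nilpotent derivation. -/
def IsLND {A : Type} [CommRing A] [Algebra ℂ A] (D : VF A) : Prop :=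
  ∀ f : A, ∃ n : ℕ, (⇑D)^[n] f = 0

/-- An algebraic overshear vector field: `f • Θ` with `Θ` locally nilpotent and
`Θ (Θ f) = 0`. -/
def IsOvershear {A : Type} [CommRing A] [Algebra ℂ A] (V : VF A) : Prop :=
  ∃ (Θ : VF A) (f : A), IsLND Θ ∧ Θ (Θ f) = 0 ∧ V = f • Θ

/-- A complete algebraic vector field: through every point (a homomorphism `A → ℂ`) there is a
holomorphic integral curve defined for all complex times. -/
def IsCompleteField {A : Type} [CommRing A] [Algebra ℂ A] (V : VF A) : Prop :=
  ∀ x : A →ₐ[ℂ] ℂ, ∃ c : ℂ → (A →ₐ[ℂ] ℂ), c 0 = x ∧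
    ∀ (f : A) (t : ℂ), HasDerivAt (fun s => c s f) (c t (V f)) t

/-- The algebraic density property. -/
def AlgebraicDensity : Prop :=
  LieSubalgebra.lieSpan ℂ (VF A) {V | IsCompleteField V} = ⊤

/-- The algebraic overshear density property. -/
def OvershearDensity : Prop :=
  LieSubalgebra.lieSpan ℂ (VF A) {V | IsOvershear V} = ⊤

/-- The tangent space at the point `x`: the point derivations at `x`. -/
def tangentSpace {A : Type} [CommRing A] [Algebra ℂ A] (x : A →ₐ[ℂ] ℂ) :
    Submodule ℂ (A →ₗ[ℂ] ℂ) where
  carrier := {δ | ∀ f g, δ (f * g) = x f * δ g + x g * δ f}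
  add_mem' := by
    intro a b ha hb f g
    simp only [Set.mem_ofPred_eq] at ha hb
    simp only [LinearMap.add_apply, ha f g, hb f g]
    ring
  zero_mem' := by
    intro f g
    simp
  smul_mem' := by
    intro c a ha f g
    simp only [Set.mem_ofPred_eq] at ha
    simp only [LinearMap.smul_apply, ha f g, smul_eq_mul]
    ring

/-- Flexibility: at every point the values of the locally nilpotent derivations span the tangent
space. -/
def Flexible : Prop :=
  ∀ x : A →ₐ[ℂ] ℂ,
    tangentSpace x ≤
      Submodule.span ℂ {δ : A →ₗ[ℂ] ℂ | ∃ D : VF A, IsLND D ∧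
        δ = x.toLinearMap.comp (D : A →ₗ[ℂ] A)}

end General

end Pool.Agent.W485
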