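import Pool.Agent.W485.Defs

/-!
The degree with respect to a locally nilpotent derivation of a domain.
-/

namespace Pool.Agent.W485

section Deg

variable {B : Type} [CommRing B] [Algebra ℂ B]

lemma iter_add (D : VF B) (k : ℕ) (f g : B) :
    (⇑D)^[k] (f + g) = (⇑D)^[k] f + (⇑D)^[k] g := by
  induction k generalizing f g with
  | zero => rfl
  | succ k ih => rw [Function.iterate_succ_apply, map_add, ih]; rfl

lemma iter_zero (D : VF B) (k : ℕ) : (⇑D)^[k] 0 = 0 := by
  induction k with
  | zero => rfl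
  | succ k ih => rw [Function.iterate_succ_apply, map_zero, ih]

lemma iter_ker_mul (D : VF B) (k : ℕ) (f g : B) (hf : D f = 0) :
    (⇑D)^[k] (f * g) = f * (⇑D)^[k] g := by
  induction k generalizing g with
  | zero => rfl
  | succ k ih =>
    rw [Function.iterate_succ_apply, Derivation.leibniz, hf, smul_zero, add_zero, smul_eq_mul, ih,
      Function.iterate_succ_apply]

lemma iter_mul (D : VF B) : ∀ (a b : ℕ) (f g : B), (⇑D)^[a + 1] f = 0 → (⇑D)^[b + 1] g = 0 →
    (⇑D)^[a + b] (f * g) = ((a + b).choose a : B) * ((⇑D)^[a] f * (⇑D)^[b] g) := by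
  intro a
  induction a with
  | zero =>
    intro b f g hf _
    rw [Nat.zero_add, Nat.choose_zero_right, Nat.cast_one, one_mul]
    exact iter_ker_mul D b f g hf
  | succ a iha =>
    intro b
    induction b with
    | zero =>
      intro f g _ hg
      rw [Nat.add_zero, Nat.choose_self, Nat.cast_one, one_mul, mul_comm f g,
        iter_ker_mul D _ g f hg, mul_comm]
      rfl
    | succ b ihb =>
      intro f g hf hg
      have e1 : a + 1 + (b + 1) = (a + 1 + b) + 1 := by omega
      rw [e1, Function.iterate_succ_apply, Derivation.leibniz, iter_add, smul_eq_mul, smul_eq_mul,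
        ihb f (D g) hf (by rw [← Function.iterate_succ_apply]; exact hg)]
      have e2 : (⇑D)^[a + 1 + b] (g * D f) =
          ((a + (b + 1)).choose a : B) * ((⇑D)^[a + 1] f * (⇑D)^[b + 1] g) := by
        have e3 : a + 1 + b = a + (b + 1) := by omega
        rw [e3, mul_comm g, iha (b + 1) (D f) g (by rw [← Function.iterate_succ_apply]; exact hf)
          hg, ← Function.iterate_succ_apply]
      rw [e2, ← Function.iterate_succ_apply]
      have e4 : (a + 1 + b + 1).choose (a + 1) = (a + (b + 1)).choose a +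
          (a + 1 + b).choose (a + 1) := by
        rw [Nat.choose_succ_succ]
        have : a + 1 + b = a + (b + 1) := by omega
        rw [this]
      rw [e4, Nat.cast_add]
      ring

/-- `f` has degree `n` with respect to `D`. -/
def Dg (D : VF B) (n : ℕ) (f : B) : Prop := (⇑D)^[n] f ≠ 0 ∧ (⇑D)^[n + 1] f = 0

lemma iter_zero_of_le (D : VF B) {k m : ℕ} (hkm : k ≤ m) {f : B}
    (h : (⇑D)^[k] f = 0) : (⇑D)^[m] f = 0 := by
  obtain ⟨d, rfl⟩ := Nat.exists_eq_add_of_le hkm
  rw [add_comm, Function.iterate_add_apply, h, iter_zero]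

lemma Dg.unique {D : VF B} {m n : ℕ} {f : B} (hm : Dg D m f) (hn : Dg D n f) : m = n := by
  rcases lt_trichotomy m n with h | h | h
  · exact absurd (iter_zero_of_le D h hm.2) hn.1
  · exact h
  · exact absurd (iter_zero_of_le D h hn.2) hm.1

lemma exists_Dg {D : VF B} (hD : IsLND D) {f : B} (hf : f ≠ 0) : ∃ n, Dg D n f := by
  classical
  have h := hD f
  have h0 : Nat.find h ≠ 0 := by
    intro h0
    have := Nat.find_spec h
    rw [h0] at this
    exact hf this
  refine ⟨Nat.find h - 1, Nat.find_min h (by omega), ?_⟩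
  have e : Nat.find h - 1 + 1 = Nat.find h := by omega
  rw [e]
  exact Nat.find_spec h

lemma Dg.mul [IsDomain B] {D : VF B} {m n : ℕ} {f g : B} (hf : Dg D m f) (hg : Dg D n g) :
    Dg D (m + n) (f * g) := by
  have : CharZero B := charZero_of_injective_algebraMap (algebraMap ℂ B).injective
  have h := iter_mul D m n f g hf.2 hg.2
  constructor
  · rw [h]
    refine mul_ne_zero ?_ (mul_ne_zero hf.1 hg.1)
    exact_mod_cast (Nat.choose_pos (Nat.le_add_right m n)).ne'
  · rw [Function.iterate_succ_apply', h, ← nsmul_eq_mul, map_nsmul, Derivation.leibniz,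
      ← Function.iterate_succ_apply' (⇑D), ← Function.iterate_succ_apply' (⇑D), hf.2, hg.2,
      smul_zero, smul_zero, add_zero, smul_zero]

lemma Dg.ne_zero {D : VF B} {n : ℕ} {f : B} (hf : Dg D n f) : f ≠ 0 := by
  intro h
  apply hf.1
  rw [h, iter_zero]

lemma Dg_zero_iff {D : VF B} {f : B} : Dg D 0 f ↔ f ≠ 0 ∧ D f = 0 := Iff.rfl

lemma Dg.succ {D : VF B} {n : ℕ} {f : B} (hf : Dg D (n + 1) f) : Dg D n (D f) :=
  ⟨by rw [← Function.iterate_succ_apply]; exact hf.1,
    by rw [← Function.iterate_succ_apply]; exact hf.2⟩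

/-- The kernel of a locally nilpotent derivation is factorially closed. -/
lemma ker_of_mul_ker [IsDomain B] {D : VF B} (hD : IsLND D) {f g : B} (hf : f ≠ 0) (hg : g ≠ 0)
    (h : D (f * g) = 0) : D f = 0 := by
  obtain ⟨m, hm⟩ := exists_Dg hD hf
  obtain ⟨n, hn⟩ := exists_Dg hD hg
  have h1 := hm.mul hn
  have h2 : Dg D 0 (f * g) := ⟨mul_ne_zero hf hg, h⟩
  have h3 := h1.unique h2
  have h4 : m = 0 := by omega
  rw [h4] at hm
  exact hm.2

end Deg

end Pool.Agent.W485
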