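import Pool.Agent.W485.Alg

/-!
Derivations of the ambient algebra and of `A`.
-/

namespace Pool.Agent.W485

open Polynomial

noncomputable section

/-- A diagonal linear operator of `R`. -/
def diag (φ : G → (ℂ[X] →ₗ[ℂ] ℂ[X])) : R →ₗ[ℂ] R :=
  (Finsupp.lsum ℂ (fun n => (AddMonoidAlgebra.lsingle n : ℂ[X] →ₗ[ℂ] R) ∘ₗ φ n)) ∘ₗ
    (AddMonoidAlgebra.coeffLinearEquiv ℂ).toLinearMap

lemma diag_sg (φ : G → (ℂ[X] →ₗ[ℂ] ℂ[X])) (n : G) (P : ℂ[X]) :
    diag φ (sg n P) = sg n (φ n P) := by
  unfold diag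
  rw [LinearMap.comp_apply]
  change Finsupp.lsum ℂ _ (Finsupp.single n P) = _
  rw [Finsupp.lsum_single]
  rfl

lemma diag_coeff (φ : G → (ℂ[X] →ₗ[ℂ] ℂ[X])) (F : R) (n : G) :
    (diag φ F).coeff n = φ n (F.coeff n) := by
  induction F using AddMonoidAlgebra.induction_linear with
  | zero => simp
  | add x y hx hy => simp only [map_add, AddMonoidAlgebra.coeff_add, Finsupp.add_apply, hx, hy]
  | single m P =>
    change (diag φ (sg m P)).coeff n = _
    rw [diag_sg, AddMonoidAlgebra.coeff_single, AddMonoidAlgebra.coeff_single,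
      Finsupp.single_apply, Finsupp.single_apply]
    split_ifs with h
    · rw [h]
    · rw [map_zero]

lemma sg_mul (m n : G) (P Q : ℂ[X]) : sg m P * sg n Q = sg (m + n) (P * Q) :=
  AddMonoidAlgebra.single_mul_single _ _ _ _

lemma sg_pow (m : G) (P : ℂ[X]) (k : ℕ) : sg m P ^ k = sg (k • m) (P ^ k) :=
  AddMonoidAlgebra.single_pow _ _ _

lemma sg_add (m : G) (P Q : ℂ[X]) : sg m (P + Q) = sg m P + sg m Q :=
  AddMonoidAlgebra.single_add _ _ _

lemma sg_sub (m : G) (P Q : ℂ[X]) : sg m (P - Q) = sg m P - sg m Q :=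
  AddMonoidAlgebra.single_sub _ _ _

lemma sg_zero (m : G) : sg m 0 = 0 := AddMonoidAlgebra.single_zero _

lemma sg_ne_zero {m : G} {P : ℂ[X]} : sg m P ≠ 0 ↔ P ≠ 0 :=
  AddMonoidAlgebra.single_ne_zero

lemma smul_sg (c : ℂ) (m : G) (P : ℂ[X]) : c • sg m P = sg m (c • P) :=
  AddMonoidAlgebra.smul_single _ _ _

lemma one_eq_sg : (1 : R) = sg 0 1 := rfl

lemma sg_coeff (m n : G) (P : ℂ[X]) : (sg m P).coeff n = if m = n then P else 0 := by
  rw [AddMonoidAlgebra.coeff_single, Finsupp.single_apply]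

lemma sg_coeff_same (m : G) (P : ℂ[X]) : (sg m P).coeff m = P := by
  rw [sg_coeff, if_pos rfl]

/-- The derivation given by a diagonal operator satisfying the Leibniz rule. -/
def diagDer (φ : G → (ℂ[X] →ₗ[ℂ] ℂ[X]))
    (h : ∀ m n P Q, φ (m + n) (P * Q) = P * φ n Q + Q * φ m P) : Derivation ℂ R R :=
  Derivation.mk' (diag φ) (by
    intro a b
    simp only [smul_eq_mul]
    induction a using AddMonoidAlgebra.induction_linear with
    | zero => simp
    | add x y hx hy => rw [add_mul, map_add, hx, hy, map_add]; ring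
    | single m P =>
      induction b using AddMonoidAlgebra.induction_linear with
      | zero => simp
      | add x y hx hy => rw [mul_add, map_add, hx, hy, map_add]; ring
      | single n Q =>
        change diag φ (sg m P * sg n Q) = sg m P * diag φ (sg n Q) + sg n Q * diag φ (sg m P)
        rw [sg_mul, diag_sg, diag_sg, diag_sg, sg_mul, sg_mul, h, sg_add, add_comm n m])

/-- Differentiation with respect to the variable `z`. -/
def dz : Derivation ℂ R R :=
  diagDer (fun _ => Polynomial.derivative) (by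
    intro _ _ P Q
    rw [Polynomial.derivative_mul]
    ring)

lemma dz_sg (n : G) (P : ℂ[X]) : dz (sg n P) = sg n (derivative P) := diag_sg _ _ _

lemma dz_coeff (F : R) (n : G) : (dz F).coeff n = derivative (F.coeff n) := diag_coeff _ _ _

/-- The Euler derivation of an additive character of the lattice. -/
def EE (σ : G →+ ℂ) : Derivation ℂ R R :=
  diagDer (fun n => σ n • LinearMap.id) (by
    intro m n P Q
    change σ (m + n) • (P * Q) = P * (σ n • Q) + Q * (σ m • P)
    rw [map_add, add_smul, mul_smul_comm, mul_smul_comm, mul_comm Q P, add_comm])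

lemma EE_sg (σ : G →+ ℂ) (n : G) (P : ℂ[X]) : EE σ (sg n P) = sg n (σ n • P) := diag_sg _ _ _

lemma EE_coeff (σ : G →+ ℂ) (F : R) (n : G) : (EE σ F).coeff n = σ n • F.coeff n :=
  diag_coeff _ _ _

/-- The complex valued coordinate characters. -/
def cc (i : Fin 4) : G →+ ℂ := (Int.castAddHom ℂ).comp (co i)

lemma cc_apply (i : Fin 4) (n : G) : cc i n = ((co i n : ℤ) : ℂ) := rfl

lemma cc_rel : cc 0 + cc 2 = cc 1 + cc 3 := by
  ext1 n
  rw [AddMonoidHom.add_apply, AddMonoidHom.add_apply, cc_apply, cc_apply, cc_apply, cc_apply]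
  exact_mod_cast co_rel n

lemma EE_add (σ τ : G →+ ℂ) : EE (σ + τ) = EE σ + EE τ := by
  ext1 F
  apply AddMonoidAlgebra.coeff_injective
  ext1 n
  rw [Derivation.add_apply, AddMonoidAlgebra.coeff_add, Finsupp.add_apply, EE_coeff, EE_coeff,
    EE_coeff, AddMonoidHom.add_apply, add_smul]

lemma EE_sub (σ τ : G →+ ℂ) : EE (σ - τ) = EE σ - EE τ := by
  ext1 F
  apply AddMonoidAlgebra.coeff_injective
  ext1 n
  rw [Derivation.sub_apply, AddMonoidAlgebra.coeff_sub, Finsupp.sub_apply, EE_coeff, EE_coeff,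
    EE_coeff, AddMonoidHom.sub_apply, sub_smul]

/-- Restriction of a derivation of the ambient algebra that preserves `A`. -/
def restr (D : Derivation ℂ R R) (h : ∀ a ∈ A, D a ∈ A) : VF AA :=
  Derivation.mk' (R := ℂ) (A := AA) (M := AA)
    { toFun := fun a => mkA (D (inc a)) (h _ (inc_mem a))
      map_add' := fun a b => inc_inj (by
        rw [map_add inc (mkA _ _), inc_mkA, inc_mkA, inc_mkA, map_add, map_add])
      map_smul' := fun c a => inc_inj (by
        rw [RingHom.id_apply, map_smul inc c (mkA _ _), inc_mkA, inc_mkA, map_smul inc c a, D.map_smul]) }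
    (by
      intro a b
      apply inc_inj
      simp only [smul_eq_mul, map_add inc, map_mul inc]
      change D (inc (a * b)) = inc a * D (inc b) + inc b * D (inc a)
      rw [map_mul, Derivation.leibniz, smul_eq_mul, smul_eq_mul])

lemma inc_restr (D : Derivation ℂ R R) (h : ∀ a ∈ A, D a ∈ A) (a : AA) :
    inc (restr D h a) = D (inc a) := rfl

/-- It is enough to check on homogeneous elements that a derivation preserves `A`. -/
lemma preserves_of_sg (D : Derivation ℂ R R) (h : ∀ n P, sg n P ∈ A → D (sg n P) ∈ A) :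
    ∀ a ∈ A, D a ∈ A := by
  intro a ha
  refine A_induction (p := fun F => D F ∈ A) ?_ ?_ h ha
  · rw [map_zero]; exact A.zero_mem
  · intro a _ b _ ha hb
    rw [map_add]; exact A.add_mem ha hb

end

end Pool.Agent.W485
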