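import Pool.Agent.W485.Fields

/-!
A derivation on `A` is determined by its values on `z` and three monomials; every derivation of
`A` is the restriction of an explicit derivation of the ambient algebra.
-/

namespace Pool.Agent.W485

open Polynomial

noncomputable section

/-- The three monomials which, together with `z`, form a transcendence basis. -/
def g1 : G := mkG 1 1 0
def g2 : G := mkG 1 0 0
def g3 : G := mkG 0 0 1

lemma co_g (i : Fin 4) : 0 ≤ co i g1 ∧ 0 ≤ co i g2 ∧ 0 ≤ co i g3 := by revert i; decide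

lemma g1_nonneg (i : Fin 4) : 0 ≤ co i g1 := (co_g i).1
lemma g2_nonneg (i : Fin 4) : 0 ≤ co i g2 := (co_g i).2.1
lemma g3_nonneg (i : Fin 4) : 0 ≤ co i g3 := (co_g i).2.2

/-- The element `z`. -/
def zA : AA := mkA zz zz_mem
/-- The three monomials as elements of the algebra. -/
def x1 : AA := mkA (tt g1) (tt_mem g1_nonneg)
def x2 : AA := mkA (tt g2) (tt_mem g2_nonneg)
def x3 : AA := mkA (tt g3) (tt_mem g3_nonneg)

/-- The polynomials in `z`, as elements of the algebra. -/
def pz (P : ℂ[X]) : AA := mkA (sg 0 P) (zero_mem_sg P)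

lemma aeval_zz (P : ℂ[X]) : aeval zz P = sg 0 P := by
  induction P using Polynomial.induction_on' with
  | add p q hp hq => rw [sg_add, map_add, hp, hq]
  | monomial n a =>
    rw [aeval_monomial]
    have : zz ^ n = sg 0 (X ^ n) := by
      unfold zz
      rw [sg_pow, smul_zero]
    rw [this, AddMonoidAlgebra.coe_algebraMap, Function.comp]
    change sg 0 _ * sg 0 _ = _
    rw [sg_mul, add_zero, ← C_mul_X_pow_eq_monomial]
    rfl

lemma pz_eq (P : ℂ[X]) : pz P = aeval zA P := by
  apply inc_inj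
  rw [← Polynomial.aeval_algHom_apply]
  exact (aeval_zz P).symm

lemma exponent_decomp (n : G) : ∃ p q r p' q' r' : ℕ,
    n + (p • g1 + q • g2 + r • g3) = p' • g1 + q' • g2 + r' • g3 := by
  refine ⟨(-(co 1 n)).toNat, (-(co 0 n - co 1 n)).toNat, (-(co 2 n)).toNat,
    (co 1 n).toNat, (co 0 n - co 1 n).toNat, (co 2 n).toNat, ?_⟩
  have a1 : co 0 g1 = 1 := rfl
  have a2 : co 0 g2 = 1 := rfl
  have a3 : co 0 g3 = 0 := rfl
  have b1 : co 1 g1 = 1 := rfl
  have b2 : co 1 g2 = 0 := rfl
  have b3 : co 1 g3 = 0 := rfl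
  have c1 : co 2 g1 = 0 := rfl
  have c2 : co 2 g2 = 0 := rfl
  have c3 : co 2 g3 = 1 := rfl
  apply G_ext
  · rw [map_add, map_add, map_add, map_add, map_add, map_nsmul, map_nsmul, map_nsmul, map_nsmul,
      map_nsmul, map_nsmul, a1, a2, a3]
    simp only [nsmul_eq_mul]
    omega
  · rw [map_add, map_add, map_add, map_add, map_add, map_nsmul, map_nsmul, map_nsmul, map_nsmul,
      map_nsmul, map_nsmul, b1, b2, b3]
    simp only [nsmul_eq_mul]
    omega
  · rw [map_add, map_add, map_add, map_add, map_add, map_nsmul, map_nsmul, map_nsmul, map_nsmul,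
      map_nsmul, map_nsmul, c1, c2, c3]
    simp only [nsmul_eq_mul]
    omega

/-- Every homogeneous element times a monomial in the `x`'s is a polynomial in `z` times a
monomial in the `x`'s. -/
lemma red (n : G) (P : ℂ[X]) (h : sg n P ∈ A) : ∃ p q r p' q' r' : ℕ,
    mkA (sg n P) h * (x1 ^ p * x2 ^ q * x3 ^ r) = pz P * (x1 ^ p' * x2 ^ q' * x3 ^ r') := by
  obtain ⟨p, q, r, p', q', r', he⟩ := exponent_decomp n
  refine ⟨p, q, r, p', q', r', inc_inj ?_⟩
  simp only [map_mul, map_pow]
  change sg n P * (tt g1 ^ p * tt g2 ^ q * tt g3 ^ r) =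
    sg 0 P * (tt g1 ^ p' * tt g2 ^ q' * tt g3 ^ r')
  rw [tt_pow, tt_pow, tt_pow, tt_mul, tt_mul, tt_pow, tt_pow, tt_pow, tt_mul, tt_mul, sg_mul,
    sg_mul, he, zero_add]

/-- Uniqueness: a linear map satisfying the Leibniz rule over `φ` and killing `z` and the `x`'s
vanishes, provided `φ` does not kill the `x`'s. -/
lemma leibniz_eq_zero {B : Type} [CommRing B] [IsDomain B] [Algebra ℂ B] (φ : AA →ₐ[ℂ] B)
    (d : AA →ₗ[ℂ] B) (hd : ∀ f g, d (f * g) = φ f * d g + φ g * d f)
    (h1 : φ x1 ≠ 0) (h2 : φ x2 ≠ 0) (h3 : φ x3 ≠ 0)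
    (dz : d zA = 0) (d1 : d x1 = 0) (d2 : d x2 = 0) (d3 : d x3 = 0) : d = 0 := by
  have hone : d 1 = 0 := by
    have := hd 1 1
    rw [mul_one, map_one φ, one_mul] at this
    exact left_eq_add.1 this
  let S : Subalgebra ℂ AA :=
    { carrier := {a | d a = 0}
      add_mem' := by
        intro a b (ha : d a = 0) (hb : d b = 0)
        change d (a + b) = 0
        rw [map_add, ha, hb, add_zero]
      mul_mem' := by
        intro a b (ha : d a = 0) (hb : d b = 0)
        change d (a * b) = 0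
        rw [hd, ha, hb, mul_zero, mul_zero, add_zero]
      algebraMap_mem' := by
        intro r
        change d (algebraMap ℂ AA r) = 0
        rw [Algebra.algebraMap_eq_smul_one, map_smul, hone, smul_zero] }
  have hS : ∀ a, a ∈ S ↔ d a = 0 := fun a => Iff.rfl
  have hz : zA ∈ S := dz
  have hx : ∀ p q r : ℕ, x1 ^ p * x2 ^ q * x3 ^ r ∈ S := fun p q r =>
    S.mul_mem (S.mul_mem (S.pow_mem d1 _) (S.pow_mem d2 _)) (S.pow_mem d3 _)
  have hpz : ∀ P : ℂ[X], pz P ∈ S := by
    intro P
    rw [pz_eq]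
    have h1 : Algebra.adjoin ℂ {zA} ≤ S := Algebra.adjoin_le (by simpa using hz)
    exact h1 (Polynomial.aeval_mem_adjoin_singleton ℂ zA)
  have key : ∀ F (hF : F ∈ A), d (mkA F hF) = 0 := by
    intro F hF
    refine A_induction (p := fun F => ∀ hF : F ∈ A, d (mkA F hF) = 0) ?_ ?_ ?_ hF hF
    · intro h; exact map_zero d
    · intro a ha b hb iha ihb h
      have : mkA (a + b) h = mkA a ha + mkA b hb := rfl
      rw [this, map_add, iha, ihb, add_zero]
    · intro n P _ h
      obtain ⟨p, q, r, p', q', r', he⟩ := red n P h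
      have e1 : d (mkA (sg n P) h * (x1 ^ p * x2 ^ q * x3 ^ r)) = 0 := by
        rw [he]; exact S.mul_mem (hpz P) (hx _ _ _)
      rw [hd, (hS _).1 (hx p q r), mul_zero, zero_add, map_mul, map_mul, map_pow, map_pow,
        map_pow] at e1
      have e2 : φ x1 ^ p * φ x2 ^ q * φ x3 ^ r ≠ 0 :=
        mul_ne_zero (mul_ne_zero (pow_ne_zero _ h1) (pow_ne_zero _ h2)) (pow_ne_zero _ h3)
      exact (mul_eq_zero.1 e1).resolve_left e2
  refine LinearMap.ext fun a => ?_
  exact key (inc a) (inc_mem a)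

/-- Two derivations of the algebra agreeing on `z` and the `x`'s are equal. -/
lemma VF_ext {V W : VF AA} (hz : V zA = W zA) (h1 : V x1 = W x1) (h2 : V x2 = W x2)
    (h3 : V x3 = W x3) : V = W := by
  have := leibniz_eq_zero (AlgHom.id ℂ AA) ((V - W : VF AA) : AA →ₗ[ℂ] AA)
    (by intro f g; exact (V - W).leibniz f g)
    (fun h => tt_ne_zero g1 (congrArg inc h))
    (fun h => tt_ne_zero g2 (congrArg inc h))
    (fun h => tt_ne_zero g3 (congrArg inc h))
    (by change V zA - W zA = 0; rw [hz, sub_self])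
    (by change V x1 - W x1 = 0; rw [h1, sub_self])
    (by change V x2 - W x2 = 0; rw [h2, sub_self])
    (by change V x3 - W x3 = 0; rw [h3, sub_self])
  refine Derivation.ext fun a => ?_
  have h := DFunLike.congr_fun this a
  change V a - W a = 0 at h
  exact sub_eq_zero.1 h

/-- The extension of a derivation of the algebra to the ambient algebra. -/
def hat (V : VF AA) : Derivation ℂ R R :=
  inc (V zA) • dz + (tt (-g1) * inc (V x1)) • EE (cc 1) +
    (tt (-g2) * inc (V x2)) • EE (cc 0 - cc 1) + (tt (-g3) * inc (V x3)) • EE (cc 2)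

lemma hat_sg (V : VF AA) (n : G) (P : ℂ[X]) : hat V (sg n P) =
    inc (V zA) * sg n (derivative P) +
    (tt (-g1) * inc (V x1)) * sg n (cc 1 n • P) +
    (tt (-g2) * inc (V x2)) * sg n ((cc 0 n - cc 1 n) • P) +
    (tt (-g3) * inc (V x3)) * sg n (cc 2 n • P) := by
  unfold hat
  simp only [Derivation.add_apply, Derivation.smul_apply, dz_sg, EE_sg, smul_eq_mul,
    AddMonoidHom.sub_apply]

lemma cc_eq_of (i : Fin 4) (n : G) (k : ℤ) (h : co i n = k) : cc i n = k := by
  rw [cc_apply, h]

lemma hat_inc (V : VF AA) (a : AA) : hat V (inc a) = inc (V a) := by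
  have key := leibniz_eq_zero inc
    ((hat V : R →ₗ[ℂ] R).comp inc.toLinearMap - inc.toLinearMap.comp (V : AA →ₗ[ℂ] AA))
    (by
      intro f g
      change hat V (inc (f * g)) - inc (V (f * g)) =
        inc f * (hat V (inc g) - inc (V g)) + inc g * (hat V (inc f) - inc (V f))
      rw [map_mul, Derivation.leibniz, Derivation.leibniz]
      simp only [smul_eq_mul, map_add, map_mul]
      ring)
    (tt_ne_zero g1) (tt_ne_zero g2) (tt_ne_zero g3)
    (by
      change hat V (sg 0 X) - inc (V zA) = 0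
      rw [hat_sg]
      simp only [map_zero, zero_smul, sg_zero, mul_zero, add_zero, derivative_X, sub_zero]
      change inc (V zA) * 1 - _ = 0
      rw [mul_one, sub_self])
    (by
      change hat V (sg g1 1) - inc (V x1) = 0
      rw [hat_sg, cc_eq_of 1 g1 1 rfl, cc_eq_of 0 g1 1 rfl, cc_eq_of 2 g1 0 rfl]
      simp only [Int.cast_one, Int.cast_zero, derivative_one, sg_zero, sub_self, zero_smul,
        one_smul, mul_zero, zero_add, add_zero]
      rw [mul_assoc, mul_comm _ (sg g1 1), tt_neg_mul, sub_self])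
    (by
      change hat V (sg g2 1) - inc (V x2) = 0
      rw [hat_sg, cc_eq_of 1 g2 0 rfl, cc_eq_of 0 g2 1 rfl, cc_eq_of 2 g2 0 rfl]
      simp only [Int.cast_one, Int.cast_zero, derivative_one, sg_zero, sub_zero, zero_smul,
        one_smul, mul_zero, zero_add, add_zero]
      rw [mul_assoc, mul_comm _ (sg g2 1), tt_neg_mul, sub_self])
    (by
      change hat V (sg g3 1) - inc (V x3) = 0
      rw [hat_sg, cc_eq_of 1 g3 0 rfl, cc_eq_of 0 g3 0 rfl, cc_eq_of 2 g3 1 rfl]
      simp only [Int.cast_one, Int.cast_zero, derivative_one, sg_zero, sub_zero, zero_smul,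
        one_smul, mul_zero, zero_add, add_zero]
      rw [mul_assoc, mul_comm _ (sg g3 1), tt_neg_mul, sub_self])
  have h := DFunLike.congr_fun key a
  change hat V (inc a) - inc (V a) = 0 at h
  exact sub_eq_zero.1 h

end

end Pool.Agent.W485
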