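import Pool.Agent.W485.Der

/-!
Exponents, monomials, and the basic locally nilpotent derivations of `A`; a derivation of `A` is
determined by its values on four elements.
-/

namespace Pool.Agent.W485

open Polynomial

noncomputable section

/-- The exponent with coordinates `(a, b, c, a + c - b)`. -/
def mkG (a b c : ℤ) : G := (a + c, a, b)

lemma G_ext {m n : G} (h0 : co 0 m = co 0 n) (h1 : co 1 m = co 1 n) (h2 : co 2 m = co 2 n) :
    m = n := by
  obtain ⟨m1, m2, m3⟩ := m
  obtain ⟨n1, n2, n3⟩ := n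
  rw [co0, co0] at h0
  rw [co1, co1] at h1
  rw [co2, co2] at h2
  simp only at h0 h1 h2
  ext <;> simp <;> omega

lemma forall_fin4 {p : Fin 4 → Prop} : (∀ i, p i) ↔ p 0 ∧ p 1 ∧ p 2 ∧ p 3 := by
  constructor
  · intro h; exact ⟨h 0, h 1, h 2, h 3⟩
  · rintro ⟨h0, h1, h2, h3⟩ i
    fin_cases i <;> assumption

/-- The exponent `(2,2,2,2)`. -/
def four : G := mkG 2 2 2

/-- The exponents of the locally nilpotent derivations. -/
def kap : Fin 4 → G := ![mkG (-1) 2 5, mkG 2 (-1) 2, mkG 5 2 (-1), mkG 2 5 2]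

/-- The exponent of `t_i t_{i+1}`. -/
def pr : Fin 4 → G := ![mkG 1 1 0, mkG 0 1 1, mkG 0 0 1, mkG 1 0 0]

lemma co_four (i : Fin 4) : co i four = 2 := by revert i; decide

lemma co_kap_self (i : Fin 4) : co i (kap i) = -1 := by revert i; decide

lemma co_kap_ne (i j : Fin 4) (h : j ≠ i) : 2 ≤ co j (kap i) := by revert i j; decide

lemma co_pr_nonneg (i j : Fin 4) : 0 ≤ co j (pr i) := by revert i j; decide

/-- The monomial of exponent `n`. -/
abbrev tt (n : G) : R := sg n 1

lemma tt_mul (m n : G) : tt m * tt n = tt (m + n) := by rw [sg_mul, mul_one]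

lemma tt_ne_zero (n : G) : tt n ≠ 0 := sg_ne_zero.2 one_ne_zero

lemma tt_neg_mul (n : G) (F : R) : tt (-n) * (tt n * F) = F := by
  rw [← mul_assoc, tt_mul, neg_add_cancel]
  exact one_mul F

lemma tt_pow (n : G) (k : ℕ) : tt n ^ k = tt (k • n) := by rw [sg_pow, one_pow]

lemma tt_mem {n : G} (hn : ∀ i, 0 ≤ co i n) : tt n ∈ A := sg_mem_of_nonneg hn _

lemma pr_mem (i : Fin 4) : tt (pr i) ∈ A := tt_mem (co_pr_nonneg i)

lemma zero_mem_sg (P : ℂ[X]) : sg 0 P ∈ A := sg_mem_of_nonneg (fun i => by rw [map_zero]) _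

/-! ### The locally nilpotent derivations -/

/-- The derivation `a₀ ∂`. -/
def D0R : Derivation ℂ R R := tt four • dz

lemma D0R_sg (n : G) (P : ℂ[X]) : D0R (sg n P) = sg (four + n) (derivative P) := by
  unfold D0R
  rw [Derivation.smul_apply, dz_sg, smul_eq_mul, sg_mul, one_mul]

/-- The derivation `t^κ (2 (z - y_i) ∂ + E_i)`. -/
def DkR (i : Fin 4) : Derivation ℂ R R :=
  sg (kap i) (2 * l i) • dz + tt (kap i) • EE (cc i)

lemma DkR_sg (i : Fin 4) (n : G) (P : ℂ[X]) :
    DkR i (sg n P) = sg (kap i + n) (2 * l i * derivative P + cc i n • P) := by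
  unfold DkR
  rw [Derivation.add_apply, Derivation.smul_apply, Derivation.smul_apply, dz_sg, EE_sg,
    smul_eq_mul, smul_eq_mul, sg_mul, sg_mul, one_mul, sg_add]

lemma derivative_l (i : Fin 4) : derivative (l i) = 1 := by
  unfold l
  rw [derivative_sub, derivative_X, derivative_C, sub_zero]

lemma cw_add_two {k m : ℤ} (h : 2 ≤ m) : cw (m + k) ≤ cw k - 1 := by unfold cw; omega

lemma dvd_derivative {i : Fin 4} {c : ℕ} {P : ℂ[X]} (h : l i ^ c ∣ P) :
    l i ^ (c - 1) ∣ derivative P := by
  obtain ⟨Q, rfl⟩ := h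
  rw [derivative_mul, derivative_pow, derivative_l]
  refine dvd_add ?_ ?_
  · rw [mul_one, mul_right_comm]
    exact Dvd.intro_left _ rfl
  · exact dvd_mul_of_dvd_left (pow_dvd_pow _ (Nat.sub_le _ _)) _

lemma D0R_pres : ∀ a ∈ A, D0R a ∈ A := by
  refine preserves_of_sg _ fun n P h => ?_
  rw [D0R_sg, sg_mem]
  rw [sg_mem] at h
  intro i
  refine dvd_trans (pow_dvd_pow _ ?_) (dvd_derivative (h i))
  rw [map_add, co_four]
  exact cw_add_two le_rfl

lemma DkR_pres (i : Fin 4) : ∀ a ∈ A, DkR i a ∈ A := by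
  refine preserves_of_sg _ fun n P h => ?_
  rw [DkR_sg, sg_mem]
  rw [sg_mem] at h
  intro j
  by_cases hj : j = i
  · subst hj
    rw [map_add, co_kap_self, cc_apply]
    rcases le_or_gt 1 (co j n) with h1 | h1
    · rw [cw_nonneg (by omega), pow_zero]
      exact one_dvd _
    · obtain ⟨Q, hQ⟩ := h j
      rw [hQ, derivative_mul, derivative_pow, derivative_l]
      set c := cw (co j n) with hc
      rcases Int.even_or_odd (co j n) with he | ho
      · have h2 : cw (-1 + co j n) = c + 1 := by
          rw [hc]; unfold cw; obtain ⟨k, hk⟩ := he; omega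
        have h3 : ((co j n : ℤ) : ℂ) = - (2 * (c : ℂ)) := by
          have : (co j n : ℤ) = - (2 * (c : ℤ)) := by
            rw [hc]; unfold cw; obtain ⟨k, hk⟩ := he; omega
          rw [this]; push_cast; ring
        rw [h2, h3]
        rcases Nat.eq_zero_or_pos c with h0 | h0
        · rw [h0]
          simp only [CharP.cast_eq_zero, mul_zero, neg_zero, zero_smul, add_zero, zero_add,
            pow_one, pow_zero, map_zero, zero_mul, one_mul]
          exact ⟨2 * derivative Q, by ring⟩
        · obtain ⟨d, hd⟩ : ∃ d, c = d + 1 := ⟨c - 1, by omega⟩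
          rw [hd, Nat.add_sub_cancel, smul_eq_C_mul]
          refine ⟨2 * derivative Q, ?_⟩
          simp only [Nat.cast_add, Nat.cast_one, map_neg, map_mul, map_add, map_one, map_natCast]
          have : (C (2 : ℂ) : ℂ[X]) = 2 := rfl
          rw [this]
          ring
      · have h2 : cw (-1 + co j n) ≤ c := by
          rw [hc]; unfold cw; obtain ⟨k, hk⟩ := ho; omega
        refine dvd_trans (pow_dvd_pow _ h2) ?_
        refine dvd_add ?_ (dvd_smul_of_dvd _ (Dvd.intro _ rfl))
        rcases Nat.eq_zero_or_pos c with h0 | h0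
        · rw [h0, pow_zero]; exact one_dvd _
        · obtain ⟨d, hd⟩ : ∃ d, c = d + 1 := ⟨c - 1, by omega⟩
          rw [hd, Nat.add_sub_cancel]
          exact ⟨2 * (C ((d + 1 : ℕ) : ℂ) * Q + l j * derivative Q), by ring⟩
  · have h1 : cw (co j (kap i + n)) ≤ cw (co j n) - 1 := by
      rw [map_add]; exact cw_add_two (co_kap_ne i j hj)
    refine dvd_trans (pow_dvd_pow _ h1) (dvd_add ?_ ?_)
    · exact dvd_mul_of_dvd_right (dvd_derivative (h j)) _
    · exact dvd_smul_of_dvd _ (dvd_trans (pow_dvd_pow _ (Nat.sub_le _ _)) (h j))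

lemma EE_pres (σ : G →+ ℂ) : ∀ a ∈ A, EE σ a ∈ A := by
  refine preserves_of_sg _ fun n P h => ?_
  rw [EE_sg, sg_mem]
  rw [sg_mem] at h
  exact fun i => dvd_smul_of_dvd _ (h i)

/-- The Euler derivations on `A`. -/
def EA (σ : G →+ ℂ) : VF AA := restr (EE σ) (EE_pres σ)

/-- The derivation `a₀ ∂` on `A`. -/
def D0 : VF AA := restr D0R D0R_pres

/-- The derivation `t^κ (2 (z - y_i) ∂ + E_i)` on `A`. -/
def Dk (i : Fin 4) : VF AA := restr (DkR i) (DkR_pres i)

lemma inc_D0 (a : AA) : inc (D0 a) = D0R (inc a) := rfl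

lemma inc_Dk (i : Fin 4) (a : AA) : inc (Dk i a) = DkR i (inc a) := rfl

lemma inc_iterate (D : Derivation ℂ R R) (h : ∀ a ∈ A, D a ∈ A) (k : ℕ) (a : AA) :
    inc ((⇑(restr D h))^[k] a) = (⇑D)^[k] (inc a) := by
  induction k generalizing a with
  | zero => rfl
  | succ k ih => rw [Function.iterate_succ_apply, ih, Function.iterate_succ_apply, inc_restr]

lemma iterate_zero_of_le (D : Derivation ℂ R R) {k m : ℕ} (hkm : k ≤ m) {F : R}
    (h : (⇑D)^[k] F = 0) : (⇑D)^[m] F = 0 := by
  obtain ⟨d, rfl⟩ := Nat.exists_eq_add_of_le hkm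
  rw [add_comm, Function.iterate_add_apply, h]
  induction d with
  | zero => rfl
  | succ d ih => rw [Function.iterate_succ_apply, map_zero]; exact ih (by omega)

lemma iterate_add_der (D : Derivation ℂ R R) (k : ℕ) (F H : R) :
    (⇑D)^[k] (F + H) = (⇑D)^[k] F + (⇑D)^[k] H := by
  induction k generalizing F H with
  | zero => rfl
  | succ k ih => rw [Function.iterate_succ_apply, map_add, ih]; rfl

lemma isLND_restr (D : Derivation ℂ R R) (h : ∀ a ∈ A, D a ∈ A)
    (hn : ∀ n P, sg n P ∈ A → ∃ k : ℕ, (⇑D)^[k] (sg n P) = 0) : IsLND (restr D h) := by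
  have key : ∀ F ∈ A, ∃ k : ℕ, (⇑D)^[k] F = 0 := by
    intro F hF
    refine A_induction (p := fun F => ∃ k : ℕ, (⇑D)^[k] F = 0) ⟨0, rfl⟩ ?_ hn hF
    rintro a - b - ⟨k, hk⟩ ⟨m, hm⟩
    refine ⟨max k m, ?_⟩
    rw [iterate_add_der, iterate_zero_of_le D (le_max_left k m) hk,
      iterate_zero_of_le D (le_max_right k m) hm, add_zero]
  intro f
  obtain ⟨k, hk⟩ := key (inc f) (inc_mem f)
  refine ⟨k, inc_inj ?_⟩
  rw [inc_iterate, hk, map_zero]

lemma D0_lnd : IsLND D0 := by
  refine isLND_restr _ _ ?_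
  have key : ∀ (k : ℕ) (n : G) (P : ℂ[X]), P.natDegree < k → (⇑D0R)^[k] (sg n P) = 0 := by
    intro k
    induction k with
    | zero => intro n P h; omega
    | succ k ih =>
      intro n P h
      rw [Function.iterate_succ_apply, D0R_sg]
      by_cases h0 : P.natDegree = 0
      · rw [natDegree_eq_zero] at h0
        obtain ⟨c, rfl⟩ := h0
        rw [derivative_C, sg_zero]
        exact iterate_zero_of_le D0R (Nat.zero_le k) rfl
      · exact ih _ _ (lt_of_le_of_lt (natDegree_derivative_le P) (by omega))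
  intro n P _
  exact ⟨P.natDegree + 1, key _ n P (Nat.lt_succ_self _)⟩

lemma natDegree_l (i : Fin 4) : (l i).natDegree = 1 := natDegree_X_sub_C _

lemma l_ne_zero (i : Fin 4) : l i ≠ 0 := X_sub_C_ne_zero _

lemma l_monic (i : Fin 4) : (l i).Monic := monic_X_sub_C _

lemma Dk_lnd (i : Fin 4) : IsLND (Dk i) := by
  refine isLND_restr _ _ ?_
  have key : ∀ (k : ℕ) (n : G) (P : ℂ[X]), sg n P ∈ A →
      (P = 0 ∨ 2 * (P.natDegree : ℤ) + co i n < k) → (⇑(DkR i))^[k] (sg n P) = 0 := by
    intro k
    induction k with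
    | zero =>
      intro n P hP h
      rcases h with h | h
      · rw [h, sg_zero]; rfl
      · by_cases hP0 : P = 0
        · rw [hP0, sg_zero]; rfl
        · exfalso
          rw [sg_mem] at hP
          have h1 := natDegree_le_of_dvd (hP i) hP0
          rw [(l_monic i).natDegree_pow, natDegree_l, mul_one] at h1
          unfold cw at h1
          push_cast at h
          omega
    | succ k ih =>
      intro n P hP h
      rw [Function.iterate_succ_apply]
      have hmem := DkR_pres i _ hP
      rw [DkR_sg] at hmem ⊢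
      refine ih _ _ hmem ?_
      rcases h with h | h
      · left; rw [h]; simp
      · right
        rw [map_add, co_kap_self]
        have h1 : (2 * l i * derivative P + cc i n • P).natDegree ≤ P.natDegree := by
          refine (natDegree_add_le _ _).trans (max_le ?_ (natDegree_smul_le _ _))
          by_cases h0 : P.natDegree = 0
          · rw [natDegree_eq_zero] at h0
            obtain ⟨c, rfl⟩ := h0
            rw [derivative_C, mul_zero, natDegree_zero]; exact Nat.zero_le _
          · refine natDegree_mul_le.trans ?_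
            have h2 := natDegree_derivative_le P
            have h3 : (2 * l i).natDegree ≤ 1 := by
              refine natDegree_mul_le.trans ?_
              rw [natDegree_l]
              have : (2 : ℂ[X]).natDegree = 0 := natDegree_ofNat 2
              omega
            omega
        push_cast at h
        omega
  intro n P hP
  refine ⟨(2 * (P.natDegree : ℤ) + co i n + 1).toNat, key _ n P hP (Or.inr ?_)⟩
  omega

end

end Pool.Agent.W485
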