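import Pool.Agent.W485.NotHom

/-!
The leading component of a derivation, and the failure of the overshear density property.
-/

namespace Pool.Agent.W485

open Polynomial

noncomputable section

/-- The order on the lattice: lexicographic, first coordinate dominating. -/
def key (n : G) : ℤ ×ₗ ℤ ×ₗ ℤ := toLex (n.1, toLex (n.2.1, n.2.2))

lemma key_add (m n : G) : key (m + n) = key m + key n := rfl

lemma key_inj : Function.Injective key := by
  intro m n h
  have h1 : (n.1, toLex (n.2.1, n.2.2)) = (m.1, toLex (m.2.1, m.2.2)) := toLex.injective h.symm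
  have h2 := congrArg Prod.fst h1
  have h3 : toLex (n.2.1, n.2.2) = toLex (m.2.1, m.2.2) := congrArg Prod.snd h1
  have h4 : (n.2.1, n.2.2) = (m.2.1, m.2.2) := toLex.injective h3
  exact Prod.ext h2.symm (Prod.ext (congrArg Prod.fst h4).symm (congrArg Prod.snd h4).symm)

lemma key_fst {m n : G} (h : key m ≤ key n) : m.1 ≤ n.1 := by
  rcases (Prod.Lex.le_iff.1 h) with h | h
  · exact h.le
  · exact h.1.le

/-- All exponents of `a` are at least `m`. -/
def Lo (m : G) (a : R) : Prop := ∀ k, a.coeff k ≠ 0 → key m ≤ key k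

lemma Lo.add {m : G} {a b : R} (ha : Lo m a) (hb : Lo m b) : Lo m (a + b) := by
  intro k hk
  rw [AddMonoidAlgebra.coeff_add, Finsupp.add_apply] at hk
  by_cases h : a.coeff k = 0
  · rw [h, zero_add] at hk; exact hb k hk
  · exact ha k h

lemma exists_of_coeff_mul {a b : R} {k : G} (h : (a * b).coeff k ≠ 0) :
    ∃ p q, a.coeff p ≠ 0 ∧ b.coeff q ≠ 0 ∧ p + q = k := by
  classical
  by_contra hcon
  push Not at hcon
  apply h
  rw [AddMonoidAlgebra.coeff_mul]
  refine Finset.sum_eq_zero fun p hp => Finset.sum_eq_zero fun q hq => ?_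
  show (if p + q = k then a.coeff p * b.coeff q else 0) = 0
  rw [if_neg]
  exact hcon p q (Finsupp.mem_support_iff.1 hp) (Finsupp.mem_support_iff.1 hq)

lemma Lo.mul {m n : G} {a b : R} (ha : Lo m a) (hb : Lo n b) : Lo (m + n) (a * b) := by
  intro k hk
  obtain ⟨p, q, hp, hq, rfl⟩ := exists_of_coeff_mul hk
  rw [key_add, key_add]
  exact add_le_add (ha p hp) (hb q hq)

lemma coeff_mul_lo {m n : G} {a b : R} (ha : Lo m a) (hb : Lo n b) :
    (a * b).coeff (m + n) = a.coeff m * b.coeff n := by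
  apply AddMonoidAlgebra.coeff_mul_add_of_uniqueAdd
  intro p q hp hq hpq
  have h1 := ha p (Finsupp.mem_support_iff.1 hp)
  have h2 := hb q (Finsupp.mem_support_iff.1 hq)
  have h3 : key p + key q = key m + key n := by rw [← key_add, ← key_add, hpq]
  have h4 : key p = key m := by
    by_contra hne
    have h5 : key m < key p := lt_of_le_of_ne h1 (Ne.symm hne)
    exact absurd h3 (ne_of_gt (add_lt_add_of_lt_of_le h5 h2))
  have h5 : p = m := key_inj h4
  refine ⟨h5, ?_⟩
  rw [h5] at hpq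
  exact add_left_cancel hpq

lemma Lo_EE {m : G} {a : R} (ha : Lo m a) (σ : G →+ ℂ) : Lo m (EE σ a) := by
  intro k hk
  rw [EE_coeff] at hk
  exact ha k (fun h => hk (by rw [h, smul_zero]))

lemma Lo_dz {m : G} {a : R} (ha : Lo m a) : Lo m (dz a) := by
  intro k hk
  rw [dz_coeff] at hk
  exact ha k (fun h => hk (by rw [h, derivative_zero]))

/-! ### Components of a derivation -/

/-- The four coefficients of a derivation. -/
def cf (V : VF AA) : Fin 4 → R :=
  ![inc (V zA), tt (-g1) * inc (V x1), tt (-g2) * inc (V x2), tt (-g3) * inc (V x3)]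

/-- The four basic derivations. -/
def bd : Fin 4 → Derivation ℂ R R := ![dz, EE (cc 1), EE (cc 0 - cc 1), EE (cc 2)]

lemma hat_eq (V : VF AA) (a : R) : hat V a = ∑ i, cf V i * bd i a := by
  rw [Fin.sum_univ_four]
  rfl

lemma bd_sg (i : Fin 4) (n : G) (P : ℂ[X]) : ∃ Q, bd i (sg n P) = sg n Q := by
  revert i
  rw [forall_fin4]
  exact ⟨⟨_, dz_sg _ _⟩, ⟨_, EE_sg _ _ _⟩, ⟨_, EE_sg _ _ _⟩, ⟨_, EE_sg _ _ _⟩⟩

lemma bd_coeff (i : Fin 4) (a : R) (n : G) :
    bd i (sg n (a.coeff n)) = sg n ((bd i a).coeff n) := by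
  revert i
  rw [forall_fin4]
  refine ⟨?_, ?_, ?_, ?_⟩
  · change dz _ = sg n ((dz a).coeff n)
    rw [dz_sg, dz_coeff]
  all_goals
    change EE _ _ = sg n ((EE _ a).coeff n)
    rw [EE_sg, EE_coeff]

lemma Lo_bd {m : G} {a : R} (ha : Lo m a) (i : Fin 4) : Lo m (bd i a) := by
  revert i
  rw [forall_fin4]
  exact ⟨Lo_dz ha, Lo_EE ha _, Lo_EE ha _, Lo_EE ha _⟩

/-- The homogeneous component of degree `d` of a derivation, on the ambient algebra. -/
def compR (V : VF AA) (d : G) : Derivation ℂ R R := ∑ i, (sg d ((cf V i).coeff d)) • bd i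

lemma compR_apply (V : VF AA) (d : G) (a : R) :
    compR V d a = ∑ i, sg d ((cf V i).coeff d) * bd i a := by
  unfold compR
  rw [Fin.sum_univ_four, Fin.sum_univ_four]
  rfl

lemma sum_coeff4 (f : Fin 4 → R) (n : G) : (∑ i, f i).coeff n = ∑ i, (f i).coeff n := by
  rw [Fin.sum_univ_four, Fin.sum_univ_four]
  rfl

lemma sg_sum4 (f : Fin 4 → ℂ[X]) (n : G) : sg n (∑ i, f i) = ∑ i, sg n (f i) := by
  rw [Fin.sum_univ_four, Fin.sum_univ_four, sg_add, sg_add, sg_add]

lemma compR_sg (V : VF AA) (d n : G) (P : ℂ[X]) :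
    compR V d (sg n P) = sg (d + n) ((hat V (sg n P)).coeff (d + n)) := by
  rw [compR_apply, hat_eq, sum_coeff4, sg_sum4]
  refine Finset.sum_congr rfl fun i _ => ?_
  obtain ⟨Q, hQ⟩ := bd_sg i n P
  rw [hQ, sg_mul]
  congr 1
  exact (AddMonoidAlgebra.coeff_mul_single_add _ _ _ _).symm

lemma compR_pres (V : VF AA) (d : G) : ∀ a ∈ A, compR V d a ∈ A := by
  refine preserves_of_sg _ fun n P h => ?_
  rw [compR_sg]
  apply coeff_mem
  have := hat_inc V (mkA (sg n P) h)
  rw [inc_mkA] at this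
  rw [this]
  exact inc_mem _

/-- The homogeneous component of degree `d` of a derivation. -/
def comp (V : VF AA) (d : G) : VF AA := restr (compR V d) (compR_pres V d)

lemma comp_hom (V : VF AA) (d : G) : IsHom (comp V d) d := by
  intro n P h
  refine ⟨(hat V (sg n P)).coeff (d + n), ?_⟩
  change compR V d (sg n P) = _
  rw [compR_sg, add_comm n d]

/-- The leading part of an element. -/
def lead (m : G) (a : AA) : AA := mkA (sg m ((inc a).coeff m)) (coeff_mem (inc_mem a) m)

lemma lead_step {V : VF AA} {e m : G} (hV : ∀ i, Lo e (cf V i)) {a : AA} (ha : Lo m (inc a)) :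
    Lo (e + m) (inc (V a)) ∧ lead (e + m) (V a) = comp V e (lead m a) := by
  rw [← hat_inc, hat_eq]
  constructor
  · rw [Fin.sum_univ_four]
    exact ((((hV 0).mul (Lo_bd ha 0)).add ((hV 1).mul (Lo_bd ha 1))).add
      ((hV 2).mul (Lo_bd ha 2))).add ((hV 3).mul (Lo_bd ha 3))
  · apply inc_inj
    change sg (e + m) ((inc (V a)).coeff (e + m)) = compR V e (sg m ((inc a).coeff m))
    rw [← hat_inc, hat_eq, compR_apply, sum_coeff4, sg_sum4]
    refine Finset.sum_congr rfl fun i _ => ?_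
    rw [coeff_mul_lo (hV i) (Lo_bd ha i), bd_coeff, sg_mul]

lemma lead_iter {V : VF AA} {e : G} (hV : ∀ i, Lo e (cf V i)) (k : ℕ) {m : G} {a : AA}
    (ha : Lo m (inc a)) : ∃ m', Lo m' (inc ((⇑V)^[k] a)) ∧
      lead m' ((⇑V)^[k] a) = (⇑(comp V e))^[k] (lead m a) := by
  induction k generalizing m a with
  | zero => exact ⟨m, ha, rfl⟩
  | succ k ih =>
    obtain ⟨h1, h2⟩ := lead_step hV ha
    obtain ⟨m', h3, h4⟩ := ih h1
    exact ⟨m', h3, by rw [Function.iterate_succ_apply, h4, h2, Function.iterate_succ_apply]⟩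

lemma lead_zero (m : G) : lead m 0 = 0 := by
  apply inc_inj
  change sg m ((inc 0).coeff m) = inc 0
  rw [map_zero]
  exact sg_zero m

lemma Lo_sg (n : G) (P : ℂ[X]) : Lo n (sg n P) := by
  intro k hk
  rw [sg_coeff] at hk
  split_ifs at hk with h
  · rw [h]
  · exact absurd rfl hk

lemma comp_lnd {V : VF AA} (hV : IsLND V) {e : G} (he : ∀ i, Lo e (cf V i)) :
    IsLND (comp V e) := by
  refine isLND_restr _ _ ?_
  intro n P h
  obtain ⟨k, hk⟩ := hV (mkA (sg n P) h)
  refine ⟨k, ?_⟩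
  obtain ⟨m', -, h2⟩ := lead_iter he k (m := n) (a := mkA (sg n P) h) (Lo_sg n P)
  rw [hk, lead_zero] at h2
  have h3 : lead n (mkA (sg n P) h) = mkA (sg n P) h := by
    apply inc_inj
    change sg n ((sg n P).coeff n) = sg n P
    rw [sg_coeff_same]
  rw [h3] at h2
  have h4 := congrArg inc h2
  rw [map_zero] at h4
  have h5 := inc_iterate (compR V e) (compR_pres V e) k (mkA (sg n P) h)
  rw [inc_mkA] at h5
  rw [← h5]
  exact h4.symm

/-- A nonzero element has a lowest exponent. -/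
lemma exists_lo {a : R} (ha : a ≠ 0) : ∃ m, Lo m a ∧ a.coeff m ≠ 0 := by
  have hne : a.coeff.support.Nonempty := by
    rw [Finsupp.support_nonempty_iff]
    exact fun h => ha (AddMonoidAlgebra.coeff_eq_zero.1 h)
  obtain ⟨m, hm, hmin⟩ := Finset.exists_min_image a.coeff.support key hne
  exact ⟨m, fun k hk => hmin k (Finsupp.mem_support_iff.2 hk), Finsupp.mem_support_iff.1 hm⟩

lemma exists_lo_der {V : VF AA} (hV : V ≠ 0) : ∃ e, (∀ i, Lo e (cf V i)) ∧ comp V e ≠ 0 := by
  classical
  let S : Finset G := Finset.univ.biUnion (fun i : Fin 4 => (cf V i).coeff.support)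
  have hne : S.Nonempty := by
    by_contra hS
    rw [Finset.not_nonempty_iff_eq_empty] at hS
    have h0 : ∀ i, cf V i = 0 := by
      intro i
      rw [← AddMonoidAlgebra.coeff_eq_zero, ← Finsupp.support_eq_empty]
      rw [← Finset.subset_empty, ← hS]
      exact Finset.subset_biUnion_of_mem (fun i : Fin 4 => (cf V i).coeff.support)
        (Finset.mem_univ i)
    apply hV
    refine Derivation.ext fun a => inc_inj ?_
    rw [← hat_inc, hat_eq]
    change _ = inc 0
    rw [map_zero]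
    exact Finset.sum_eq_zero fun i _ => by rw [h0 i, zero_mul]
  obtain ⟨e, he, hmin⟩ := Finset.exists_min_image S key hne
  refine ⟨e, ?_, ?_⟩
  · intro i k hk
    refine hmin k ?_
    rw [Finset.mem_biUnion]
    exact ⟨i, Finset.mem_univ i, Finsupp.mem_support_iff.2 hk⟩
  · intro h0
    rw [Finset.mem_biUnion] at he
    obtain ⟨i, -, hi⟩ := he
    rw [Finsupp.mem_support_iff] at hi
    apply hi
    have hz : ∀ a : AA, compR V e (inc a) = 0 := by
      intro a
      have h1 : inc (comp V e a) = 0 := by rw [h0]; exact map_zero inc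
      exact h1
    have e0 : (cf V 0).coeff e = 0 := by
      have h1 := hz zA
      change compR V e (sg 0 X) = 0 at h1
      rw [compR_apply, Fin.sum_univ_four] at h1
      change sg e ((cf V 0).coeff e) * dz (sg 0 X) + sg e ((cf V 1).coeff e) * EE (cc 1) (sg 0 X) +
        sg e ((cf V 2).coeff e) * EE (cc 0 - cc 1) (sg 0 X) +
        sg e ((cf V 3).coeff e) * EE (cc 2) (sg 0 X) = 0 at h1
      rw [dz_sg, EE_sg, EE_sg, EE_sg, map_zero, map_zero, map_zero, zero_smul, sg_zero, mul_zero,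
        mul_zero, mul_zero, add_zero, add_zero, add_zero, derivative_X, sg_mul, mul_one] at h1
      exact AddMonoidAlgebra.single_eq_zero.1 h1
    have hj : ∀ (g : G) (hg : ∀ i, 0 ≤ co i g), sg e ((cf V 1).coeff e * (cc 1 g • 1) +
        (cf V 2).coeff e * ((cc 0 g - cc 1 g) • 1) + (cf V 3).coeff e * (cc 2 g • 1)) = 0 := by
      intro g hg
      have h1 := hz (mkA (tt g) (tt_mem hg))
      change compR V e (sg g 1) = 0 at h1
      rw [compR_apply, Fin.sum_univ_four] at h1
      change sg e ((cf V 0).coeff e) * dz (sg g 1) + sg e ((cf V 1).coeff e) * EE (cc 1) (sg g 1) +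
        sg e ((cf V 2).coeff e) * EE (cc 0 - cc 1) (sg g 1) +
        sg e ((cf V 3).coeff e) * EE (cc 2) (sg g 1) = 0 at h1
      rw [dz_sg, EE_sg, EE_sg, EE_sg, derivative_one, sg_zero, mul_zero, zero_add, sg_mul, sg_mul,
        sg_mul, ← sg_add, ← sg_add, AddMonoidHom.sub_apply] at h1
      rw [AddMonoidAlgebra.single_eq_zero.1 h1, sg_zero]
    have e1 : (cf V 1).coeff e = 0 := by
      have h1 := hj g1 g1_nonneg
      rw [cc_eq_of 1 g1 1 rfl, cc_eq_of 0 g1 1 rfl, cc_eq_of 2 g1 0 rfl] at h1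
      simp only [Int.cast_one, Int.cast_zero, sub_self, zero_smul, mul_zero, add_zero, one_smul,
        mul_one] at h1
      exact AddMonoidAlgebra.single_eq_zero.1 h1
    have e2 : (cf V 2).coeff e = 0 := by
      have h1 := hj g2 g2_nonneg
      rw [cc_eq_of 1 g2 0 rfl, cc_eq_of 0 g2 1 rfl, cc_eq_of 2 g2 0 rfl] at h1
      simp only [Int.cast_one, Int.cast_zero, sub_zero, zero_smul, mul_zero, add_zero, zero_add,
        one_smul, mul_one] at h1
      exact AddMonoidAlgebra.single_eq_zero.1 h1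
    have e3 : (cf V 3).coeff e = 0 := by
      have h1 := hj g3 g3_nonneg
      rw [cc_eq_of 1 g3 0 rfl, cc_eq_of 0 g3 0 rfl, cc_eq_of 2 g3 1 rfl] at h1
      simp only [Int.cast_one, Int.cast_zero, sub_zero, zero_smul, mul_zero, zero_add,
        one_smul, mul_one] at h1
      exact AddMonoidAlgebra.single_eq_zero.1 h1
    have := (forall_fin4 (p := fun i => (cf V i).coeff e = 0)).2 ⟨e0, e1, e2, e3⟩
    exact this i

/-! ### The weight filtration -/

/-- All exponents of `a` have weight at least `j`. -/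
def NN (j : ℤ) (a : R) : Prop := ∀ k, a.coeff k ≠ 0 → j ≤ k.1

lemma NN.add {j : ℤ} {a b : R} (ha : NN j a) (hb : NN j b) : NN j (a + b) := by
  intro k hk
  rw [AddMonoidAlgebra.coeff_add, Finsupp.add_apply] at hk
  by_cases h : a.coeff k = 0
  · rw [h, zero_add] at hk; exact hb k hk
  · exact ha k h

lemma NN.mul {i j : ℤ} {a b : R} (ha : NN i a) (hb : NN j b) : NN (i + j) (a * b) := by
  intro k hk
  obtain ⟨p, q, hp, hq, rfl⟩ := exists_of_coeff_mul hk
  exact add_le_add (ha p hp) (hb q hq)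

lemma Lo.NN {m : G} {a : R} (ha : Lo m a) : NN m.1 a := fun k hk => key_fst (ha k hk)

lemma NN_EE {j : ℤ} {a : R} (ha : NN j a) (σ : G →+ ℂ) : NN j (EE σ a) := by
  intro k hk
  rw [EE_coeff] at hk
  exact ha k (fun h => hk (by rw [h, smul_zero]))

lemma NN_dz {j : ℤ} {a : R} (ha : NN j a) : NN j (dz a) := by
  intro k hk
  rw [dz_coeff] at hk
  exact ha k (fun h => hk (by rw [h, derivative_zero]))

lemma NN_bd {j : ℤ} {a : R} (ha : NN j a) (i : Fin 4) : NN j (bd i a) := by
  revert i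
  rw [forall_fin4]
  exact ⟨NN_dz ha, NN_EE ha _, NN_EE ha _, NN_EE ha _⟩

lemma NN_der {V : VF AA} {i j : ℤ} (hV : ∀ k, NN i (cf V k)) {a : AA} (ha : NN j (inc a)) :
    NN (i + j) (inc (V a)) := by
  rw [← hat_inc, hat_eq, Fin.sum_univ_four]
  exact ((((hV 0).mul (NN_bd ha 0)).add ((hV 1).mul (NN_bd ha 1))).add
      ((hV 2).mul (NN_bd ha 2))).add ((hV 3).mul (NN_bd ha 3))

lemma NN.mono {i j : ℤ} {a : R} (hij : i ≤ j) (ha : NN j a) : NN i a :=
  fun k hk => hij.trans (ha k hk)

lemma NN_zero (j : ℤ) : NN j (0 : R) := by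
  intro k hk
  exact absurd rfl hk

/-- Overshears preserve the weight filtration. -/
lemma overshear_NN {V : VF AA} (hV : IsOvershear V) {a : AA} (ha : NN 1 (inc a)) :
    NN 1 (inc (V a)) := by
  obtain ⟨Θ, f, hΘ, hf, rfl⟩ := hV
  change NN 1 (inc (f * Θ a))
  rw [map_mul]
  by_cases h1 : Θ = 0
  · rw [h1]
    change NN 1 (inc f * inc 0)
    rw [map_zero, mul_zero]
    exact NN_zero 1
  by_cases h2 : inc f = 0
  · rw [h2, zero_mul]
    exact NN_zero 1
  obtain ⟨e, he, hne⟩ := exists_lo_der h1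
  obtain ⟨m, hm, hm0⟩ := exists_lo h2
  have h3 := lead_step he hm
  have h4 := lead_step he h3.1
  have h5 : comp Θ e (comp Θ e (lead m f)) = 0 := by
    rw [← h3.2, ← h4.2, hf, lead_zero]
  have h6 : 0 ≤ m.1 + e.1 :=
    overshear_weight (comp_lnd hΘ he) hne (comp_hom Θ e) (coeff_mem (inc_mem f) m) hm0 h5
  have h7 := hm.NN.mul (NN_der (fun k => (he k).NN) ha)
  exact h7.mono (by omega)

/-- The Lie algebra of the derivations preserving the weight filtration. -/
def filt : LieSubalgebra ℂ (VF AA) where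
  carrier := {V | ∀ a : AA, NN 1 (inc a) → NN 1 (inc (V a))}
  add_mem' := by
    intro V W hV hW a ha
    change NN 1 (inc (V a + W a))
    rw [map_add]
    exact (hV a ha).add (hW a ha)
  zero_mem' := by
    intro a _
    change NN 1 (inc 0)
    rw [map_zero]
    exact NN_zero 1
  smul_mem' := by
    intro c V hV a ha
    change NN 1 (inc (c • V a))
    rw [map_smul]
    intro k hk
    rw [AddMonoidAlgebra.coeff_smul, Finsupp.smul_apply] at hk
    exact hV a ha k (fun h => hk (by rw [h, smul_zero]))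
  lie_mem' := by
    intro V W hV hW a ha
    rw [Derivation.commutator_apply, map_sub, sub_eq_add_neg]
    refine NN.add (hV _ (hW a ha)) ?_
    intro k hk
    rw [AddMonoidAlgebra.coeff_neg, Finsupp.neg_apply] at hk
    exact hW _ (hV a ha) k (fun h => hk (by rw [h, neg_zero]))

/-- The algebra does not have the overshear density property. -/
theorem not_overshearDensity : ¬ OvershearDensity AA := by
  intro h
  have h1 : LieSubalgebra.lieSpan ℂ (VF AA) {V | IsOvershear V} ≤ filt := by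
    rw [LieSubalgebra.lieSpan_le]
    intro V hV a ha
    exact overshear_NN hV ha
  unfold OvershearDensity at h
  rw [h] at h1
  let σ : G →+ ℂ := (Int.castAddHom ℂ).comp (AddMonoidHom.fst ℤ (ℤ × ℤ))
  let U : VF AA := mkA (sg (-(pr 0) + -(pr 0)) (l 0 * l (0 + 1))) (s_mem 0) • EA σ
  have h2 : U ∈ filt := h1 (LieSubalgebra.mem_top _)
  have h3 : NN 1 (inc x1) := by
    intro k hk
    change (sg g1 1).coeff k ≠ 0 at hk
    rw [sg_coeff] at hk
    split_ifs at hk with h
    · rw [← h]; decide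
    · exact absurd rfl hk
  have h4 := h2 x1 h3
  have h5 : inc (U x1) = sg (-(pr 0) + -(pr 0) + g1) (l 0 * l (0 + 1) * (σ g1 • 1)) := by
    change inc (mkA (sg (-(pr 0) + -(pr 0)) (l 0 * l (0 + 1))) (s_mem 0) * EA σ x1) = _
    rw [map_mul]
    change sg (-(pr 0) + -(pr 0)) (l 0 * l (0 + 1)) * EE σ (sg g1 1) = _
    rw [EE_sg, sg_mul]
  have hσ : σ g1 = 1 := by
    change ((g1.1 : ℤ) : ℂ) = 1
    have : g1.1 = 1 := rfl
    rw [this, Int.cast_one]
  rw [h5, hσ, one_smul, mul_one] at h4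
  have h6 := h4 (-(pr 0) + -(pr 0) + g1) (by
    rw [sg_coeff_same]
    exact mul_ne_zero (l_ne_zero _) (l_ne_zero _))
  revert h6
  decide

end

end Pool.Agent.W485
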