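import Pool.Agent.W485.Ext
import Pool.Agent.W485.Deg

/-!
Homogeneous locally nilpotent derivations of `A`.
-/

namespace Pool.Agent.W485

open Polynomial

noncomputable section

/-- Homogeneous derivations. -/
def IsHom (D : VF AA) (e : G) : Prop :=
  ∀ n P (h : sg n P ∈ A), ∃ Q, inc (D (mkA (sg n P) h)) = sg (n + e) Q

lemma l_coprime {i j : Fin 4} (h : i ≠ j) : IsCoprime (l i) (l j) :=
  isCoprime_X_sub_C_of_isUnit_sub (sub_ne_zero.2 fun h' => h (y_inj h')).isUnit

/-- The generator of the homogeneous component of degree `n`. -/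
def W (n : G) : ℂ[X] := ∏ i, l i ^ cw (co i n)

lemma W_ne_zero (n : G) : W n ≠ 0 :=
  Finset.prod_ne_zero_iff.2 fun i _ => pow_ne_zero _ (l_ne_zero i)

lemma W_mem (n : G) : sg n (W n) ∈ A := by
  rw [sg_mem]
  intro i
  exact Finset.dvd_prod_of_mem (fun i => l i ^ cw (co i n)) (Finset.mem_univ i)

lemma D_pz (D : VF AA) (P : ℂ[X]) : D (pz P) = pz (derivative P) * D zA := by
  rw [pz_eq, pz_eq, Derivation.map_aeval, smul_eq_mul]

lemma pz_mul (P Q : ℂ[X]) : pz (P * Q) = pz P * pz Q := by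
  rw [pz_eq, pz_eq, pz_eq, map_mul]

lemma pz_ne_zero {P : ℂ[X]} (h : P ≠ 0) : pz P ≠ 0 := by
  intro h'
  have : sg 0 P = 0 := congrArg inc h'
  exact sg_ne_zero.2 h this

lemma mkA_ne_zero {n : G} {P : ℂ[X]} {h : sg n P ∈ A} (hP : P ≠ 0) : mkA (sg n P) h ≠ 0 := by
  intro h'
  have : sg n P = 0 := congrArg inc h'
  exact sg_ne_zero.2 hP this

lemma mkA_mul (m n : G) (P Q : ℂ[X]) (hP : sg m P ∈ A) (hQ : sg n Q ∈ A)
    (h : sg (m + n) (P * Q) ∈ A) :
    mkA (sg m P) hP * mkA (sg n Q) hQ = mkA (sg (m + n) (P * Q)) h := by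
  apply inc_inj
  rw [map_mul]
  exact sg_mul _ _ _ _

lemma sg_mem_add {m n : G} {P Q : ℂ[X]} (hP : sg m P ∈ A) (hQ : sg n Q ∈ A) :
    sg (m + n) (P * Q) ∈ A := by
  rw [← sg_mul]
  exact A.mul_mem hP hQ

lemma VF_eq_zero_of_sg {D : VF AA} (h : ∀ n P (h : sg n P ∈ A), D (mkA (sg n P) h) = 0) :
    D = 0 := by
  refine Derivation.ext fun a => ?_
  have key : ∀ F ∈ A, ∀ hF : F ∈ A, D (mkA F hF) = 0 := by
    intro F hF
    refine A_induction (p := fun F => ∀ hF : F ∈ A, D (mkA F hF) = 0) ?_ ?_ ?_ hF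
    · intro _; exact map_zero D
    · intro a ha b hb iha ihb h
      have : mkA (a + b) h = mkA a ha + mkA b hb := rfl
      rw [this, map_add, iha, ihb, add_zero]
    · intro n P _ hP
      exact h n P hP
  exact key (inc a) (inc_mem a) (inc_mem a)

/-- A nonzero locally nilpotent derivation does not kill `z`. -/
lemma D_zA_ne_zero {D : VF AA} (hD : IsLND D) (h0 : D ≠ 0) : D zA ≠ 0 := by
  intro hz
  apply h0
  apply VF_eq_zero_of_sg
  intro n P h
  by_cases hP : P = 0
  · subst hP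
    have : mkA (sg n 0) h = 0 := inc_inj (by rw [inc_mkA, sg_zero, map_zero])
    rw [this, map_zero]
  · refine ker_of_mul_ker hD (mkA_ne_zero hP) (mkA_ne_zero (W_ne_zero (-n)) (h := W_mem (-n))) ?_
    rw [mkA_mul _ _ _ _ _ _ (sg_mem_add h (W_mem (-n)))]
    have : mkA (sg (n + -n) (P * W (-n))) (sg_mem_add h (W_mem (-n))) = pz (P * W (-n)) := by
      apply inc_inj
      change sg (n + -n) _ = sg 0 _
      rw [add_neg_cancel]
    rw [this, D_pz, hz, mul_zero]

lemma ne_succ (i : Fin 4) : i ≠ i + 1 := by revert i; decide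

lemma co_pr (i : Fin 4) : co i (pr i) = 1 ∧ co (i + 1) (pr i) = 1 ∧ co (i + 2) (pr i) = 0 ∧
    co (i + 3) (pr i) = 0 := by revert i; decide

lemma s_mem (i : Fin 4) : sg (-(pr i) + -(pr i)) (l i * l (i + 1)) ∈ A := by
  rw [sg_mem]
  intro j
  have h := co_pr i
  have hj : j = i ∨ j = i + 1 ∨ j = i + 2 ∨ j = i + 3 := by
    revert i j; decide
  rcases hj with rfl | rfl | rfl | rfl
  · rw [map_add, map_neg, h.1]
    have : cw (-1 + -1) = 1 := rfl
    rw [this, pow_one]; exact Dvd.intro _ rfl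
  · rw [map_add, map_neg, h.2.1]
    have : cw (-1 + -1) = 1 := rfl
    rw [this, pow_one]; exact Dvd.intro_left _ rfl
  · rw [map_add, map_neg, h.2.2.1]
    have : cw (-0 + -0) = 0 := rfl
    rw [this, pow_zero]; exact one_dvd _
  · rw [map_add, map_neg, h.2.2.2]
    have : cw (-0 + -0) = 0 := rfl
    rw [this, pow_zero]; exact one_dvd _

/-- The key divisibility for the value of a homogeneous derivation at `z`. -/
lemma dvd_Dz {D : VF AA} {e : G} (hom : IsHom D e) {P : ℂ[X]} (hP : inc (D zA) = sg e P)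
    (i : Fin 4) : l i ^ cw (co i e - 1) ∣ P := by
  obtain ⟨Qf, hQf⟩ := hom (pr i) 1 (pr_mem i)
  obtain ⟨Qh, hQh⟩ := hom (-(pr i) + -(pr i)) (l i * l (i + 1)) (s_mem i)
  set f := mkA (tt (pr i)) (pr_mem i) with hf
  set h := mkA (sg (-(pr i) + -(pr i)) (l i * l (i + 1))) (s_mem i) with hh
  have e1 : f * f * h = pz (l i * l (i + 1)) := by
    apply inc_inj
    rw [map_mul, map_mul]
    change tt (pr i) * tt (pr i) * sg (-(pr i) + -(pr i)) (l i * l (i + 1)) = sg 0 _
    rw [tt_mul, sg_mul, one_mul]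
    congr 1
    abel
  have e2 := congrArg D e1
  rw [D_pz, Derivation.leibniz, Derivation.leibniz, derivative_mul, derivative_l, derivative_l,
    one_mul, mul_one] at e2
  have e3 := congrArg inc e2
  simp only [smul_eq_mul, map_add, map_mul] at e3
  have if1 : inc f = tt (pr i) := rfl
  have ih1 : inc h = sg (-(pr i) + -(pr i)) (l i * l (i + 1)) := rfl
  have ip : inc (pz (l (i + 1) + l i)) = sg 0 (l (i + 1) + l i) := rfl
  rw [hQf, hQh, hP, if1, ih1, ip, tt_mul, sg_mul, sg_mul, sg_mul, ← sg_add, sg_mul] at e3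
  have a1 : pr i + pr i + (-(pr i) + -(pr i) + e) = e := by abel
  have a2 : -(pr i) + -(pr i) + (pr i + (pr i + e)) = e := by abel
  rw [a1, a2, zero_add, ← sg_add] at e3
  have e4 := congrArg (fun F => F.coeff e) e3
  simp only [sg_coeff_same] at e4
  -- now an identity of polynomials
  have hcop : IsCoprime (l i ^ cw (co i e - 1)) (l (i + 1) + l i) := by
    apply IsCoprime.pow_left
    have h2 : IsCoprime (l i) (l (i + 1)) := l_coprime (ne_succ i)
    have := h2.add_mul_left_right 1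
    rwa [mul_one] at this
  refine hcop.dvd_of_dvd_mul_left ?_
  rw [← e4]
  have mf := inc_mem (D f)
  have mh := inc_mem (D h)
  rw [hQf, sg_mem] at mf
  rw [hQh, sg_mem] at mh
  have mf' := mf i
  have mh' := mh i
  rw [map_add, (co_pr i).1] at mf'
  rw [map_add, map_add, map_neg, (co_pr i).1] at mh'
  refine dvd_add ?_ ?_
  · refine dvd_trans (pow_dvd_pow _ ?_) (dvd_mul_of_dvd_right mh' _)
    unfold cw; omega
  · have : l i ^ (1 + cw (1 + co i e)) ∣ l i * l (i + 1) * (1 * Qf + 1 * Qf) := by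
      rw [pow_add, pow_one, mul_assoc]
      refine mul_dvd_mul_left _ (dvd_mul_of_dvd_right ?_ _)
      rw [one_mul]
      exact dvd_add mf' mf'
    refine dvd_trans (pow_dvd_pow _ ?_) this
    unfold cw; omega

/-- A homogeneous kernel element has at most one negative exponent. -/
lemma no_two_neg {D : VF AA} (hD : IsLND D) (h0 : D ≠ 0) {e : G} (hom : IsHom D e)
    {n : G} {P : ℂ[X]} (h : sg n P ∈ A) (hP : P ≠ 0) (hk : D (mkA (sg n P) h) = 0)
    {i j : Fin 4} (hij : i ≠ j) (hi : co i n < 0) (hj : co j n < 0) : False := by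
  obtain ⟨Pz, hPz⟩ := hom 0 X zz_mem
  have hPz' : inc (D zA) = sg e Pz := by rw [zero_add] at hPz; exact hPz
  have hdvd := dvd_Dz hom hPz'
  have hPm := sg_mem.1 h
  have hli : l i ∣ P := dvd_trans (dvd_pow_self _ (by unfold cw; omega)) (hPm i)
  have hlj : l j ∣ P := dvd_trans (dvd_pow_self _ (by unfold cw; omega)) (hPm j)
  obtain ⟨P', hP'⟩ := (l_coprime hij).mul_dvd hli hlj
  have hmem : sg (n + (e + e)) (P' * (Pz * Pz)) ∈ A := by
    rw [sg_mem]
    intro a
    have key : ∀ b : Fin 4, b ≠ a → co b n < 0 → l b ∣ P → co a n < 0 → a ≠ b →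
        P = l a * l b * P' → l a ^ cw (co a (n + (e + e))) ∣ P' * (Pz * Pz) := by
      intro b hba _ _ han hab hPab
      have h1 : l a ^ (cw (co a n) - 1) ∣ P' := by
        have h2 := hPm a
        obtain ⟨c, hc⟩ : ∃ c, cw (co a n) = c + 1 := ⟨cw (co a n) - 1, by unfold cw; omega⟩
        rw [hPab, hc, pow_succ', mul_assoc] at h2
        have h3 := (mul_dvd_mul_iff_left (l_ne_zero a)).1 h2
        rw [hc, Nat.add_sub_cancel]
        exact (IsCoprime.pow_left (l_coprime hab)).dvd_of_dvd_mul_left h3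
      have h4 : l a ^ ((cw (co a n) - 1) + (cw (co a e - 1) + cw (co a e - 1))) ∣
          P' * (Pz * Pz) := by
        rw [pow_add, pow_add]
        exact mul_dvd_mul h1 (mul_dvd_mul (hdvd a) (hdvd a))
      refine dvd_trans (pow_dvd_pow _ ?_) h4
      rw [map_add, map_add]
      unfold cw; omega
    by_cases hai : a = i
    · subst hai
      exact key j (Ne.symm hij) hj hlj hi hij hP'
    by_cases haj : a = j
    · subst haj
      exact key i hij hi hli hj (Ne.symm hij) (by rw [hP']; ring)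
    · have h1 : l a ^ cw (co a n) ∣ P' := by
        have h2 := hPm a
        rw [hP'] at h2
        exact (IsCoprime.pow_left ((l_coprime hai).mul_right (l_coprime haj))).dvd_of_dvd_mul_left
          h2
      have h4 : l a ^ (cw (co a n) + (cw (co a e - 1) + cw (co a e - 1))) ∣
          P' * (Pz * Pz) := by
        rw [pow_add, pow_add]
        exact mul_dvd_mul h1 (mul_dvd_mul (hdvd a) (hdvd a))
      refine dvd_trans (pow_dvd_pow _ ?_) h4
      rw [map_add, map_add]
      unfold cw; omega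
  -- the identity `k (D z)^2 = (z - y_i) (z - y_j) h`
  have hid : mkA (sg n P) h * (D zA * D zA) =
      pz (l i) * pz (l j) * mkA (sg (n + (e + e)) (P' * (Pz * Pz))) hmem := by
    apply inc_inj
    rw [map_mul, map_mul, map_mul, map_mul, hPz']
    change sg n P * (sg e Pz * sg e Pz) = sg 0 (l i) * sg 0 (l j) * sg (n + (e + e)) _
    rw [sg_mul, sg_mul, sg_mul, sg_mul, zero_add, zero_add, hP']
    congr 1
    ring
  have hzne : D zA ≠ 0 := D_zA_ne_zero hD h0
  have hz : zA ≠ 0 := by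
    intro hz; apply hzne; rw [hz, map_zero]
  obtain ⟨Z, hZ⟩ := exists_Dg hD hz
  obtain ⟨Z', rfl⟩ : ∃ Z', Z = Z' + 1 := by
    refine ⟨Z - 1, ?_⟩
    have : Z ≠ 0 := by
      intro h; rw [h] at hZ; exact hzne hZ.2
    omega
  have hl : ∀ a : Fin 4, Dg D (Z' + 1) (pz (l a)) := by
    intro a
    have h1 : D (pz (l a)) = D zA := by
      rw [D_pz, derivative_l]
      have : pz 1 = 1 := rfl
      rw [this, one_mul]
    constructor
    · rw [Function.iterate_succ_apply, h1, ← Function.iterate_succ_apply]; exact hZ.1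
    · rw [Function.iterate_succ_apply, h1, ← Function.iterate_succ_apply]; exact hZ.2
  have hk0 : Dg D 0 (mkA (sg n P) h) := ⟨mkA_ne_zero hP, hk⟩
  have h1 := hk0.mul (hZ.succ.mul hZ.succ)
  rw [hid] at h1
  have hne : mkA (sg (n + (e + e)) (P' * (Pz * Pz))) hmem ≠ 0 := by
    intro h'
    rw [h', mul_zero] at h1
    exact h1.ne_zero rfl
  obtain ⟨c, hc⟩ := exists_Dg hD hne
  have h2 := ((hl i).mul (hl j)).mul hc
  have h3 := h1.unique h2
  omega

/-- Homogeneous kernel elements have nonnegative weight. -/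
lemma ker_weight {D : VF AA} (hD : IsLND D) (h0 : D ≠ 0) {e : G} (hom : IsHom D e)
    {n : G} {P : ℂ[X]} (h : sg n P ∈ A) (hP : P ≠ 0) (hk : D (mkA (sg n P) h) = 0) :
    0 ≤ n.1 := by
  by_contra hn
  have h02 : co 0 n < 0 ∨ co 2 n < 0 := by rw [co0, co2]; omega
  have h13 : co 1 n < 0 ∨ co 3 n < 0 := by rw [co1, co3]; omega
  rcases h02 with a | a <;> rcases h13 with b | b
  · exact no_two_neg hD h0 hom h hP hk (by decide) a b
  · exact no_two_neg hD h0 hom h hP hk (by decide) a b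
  · exact no_two_neg hD h0 hom h hP hk (by decide) a b
  · exact no_two_neg hD h0 hom h hP hk (by decide) a b

lemma iter_hom {D : VF AA} {e : G} (hom : IsHom D e) (k : ℕ) (n : G) (P : ℂ[X])
    (h : sg n P ∈ A) : ∃ Q, inc ((⇑D)^[k] (mkA (sg n P) h)) = sg (n + k • e) Q := by
  induction k generalizing n P with
  | zero => exact ⟨P, by rw [zero_smul, add_zero]; rfl⟩
  | succ k ih =>
    obtain ⟨Q, hQ⟩ := hom n P h
    have hQm : sg (n + e) Q ∈ A := by rw [← hQ]; exact inc_mem _
    have hD : D (mkA (sg n P) h) = mkA (sg (n + e) Q) hQm := inc_inj hQ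
    obtain ⟨Q', hQ'⟩ := ih (n + e) Q hQm
    refine ⟨Q', ?_⟩
    rw [Function.iterate_succ_apply, hD, hQ']
    congr 1
    rw [succ_nsmul]
    abel

/-- A homogeneous nonzero locally nilpotent derivation has nonnegative weight. -/
lemma der_weight {D : VF AA} (hD : IsLND D) (h0 : D ≠ 0) {e : G} (hom : IsHom D e) :
    0 ≤ e.1 := by
  have hzne : D zA ≠ 0 := D_zA_ne_zero hD h0
  have hz : zA ≠ 0 := by
    intro hz; apply hzne; rw [hz, map_zero]
  obtain ⟨Z, hZ⟩ := exists_Dg hD hz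
  have hZ0 : Z ≠ 0 := by
    intro h; rw [h] at hZ; exact hzne hZ.2
  obtain ⟨Q, hQ⟩ := iter_hom hom Z 0 X zz_mem
  have hQm : sg (0 + Z • e) Q ∈ A := by rw [← hQ]; exact inc_mem _
  have h1 : (⇑D)^[Z] zA = mkA (sg (0 + Z • e) Q) hQm := inc_inj hQ
  have hQ0 : Q ≠ 0 := by
    intro h
    apply hZ.1
    rw [h1]
    apply inc_inj
    rw [inc_mkA, h, sg_zero, map_zero]
  have h2 : D (mkA (sg (0 + Z • e) Q) hQm) = 0 := by
    rw [← h1, ← Function.iterate_succ_apply' (⇑D)]
    exact hZ.2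
  have h3 := ker_weight hD h0 hom hQm hQ0 h2
  have h4 : (0 + Z • e : G).1 = Z * e.1 := by
    rw [zero_add, Prod.smul_fst, nsmul_eq_mul]
  rw [h4] at h3
  have h5 : (0 : ℤ) < Z := by omega
  exact nonneg_of_mul_nonneg_right h3 h5

/-- The weight inequality for homogeneous overshears. -/
lemma overshear_weight {D : VF AA} (hD : IsLND D) (h0 : D ≠ 0) {e : G} (hom : IsHom D e)
    {m : G} {P : ℂ[X]} (h : sg m P ∈ A) (hP : P ≠ 0) (hf : D (D (mkA (sg m P) h)) = 0) :
    0 ≤ m.1 + e.1 := by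
  by_cases hDf : D (mkA (sg m P) h) = 0
  · have h1 := ker_weight hD h0 hom h hP hDf
    have h2 := der_weight hD h0 hom
    omega
  · obtain ⟨Q, hQ⟩ := hom m P h
    have hQm : sg (m + e) Q ∈ A := by rw [← hQ]; exact inc_mem _
    have h1 : D (mkA (sg m P) h) = mkA (sg (m + e) Q) hQm := inc_inj hQ
    have hQ0 : Q ≠ 0 := by
      intro h
      apply hDf
      rw [h1]
      apply inc_inj
      rw [inc_mkA, h, sg_zero, map_zero]
    rw [h1] at hf
    exact ker_weight hD h0 hom hQm hQ0 hf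

end

end Pool.Agent.W485
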